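import Pool.Agent.Lib.MP_d1c05b_gt.PM.Prof

/-!
# The cone bodies: sharpness for `k < n`

`{w ∈ [0,∞)ⁿ : max_{i ≤ k} w_i + ∑_{j > k} w_j / k ≤ 1}` has volume `k^{n-k} k! / n!`.
-/

open MeasureTheory
open scoped ENNReal

namespace Pool.Agent.Lib.MP_d1c05b_gt.PM

/-- the coefficients of the cone body -/
noncomputable def cA (n k : ℕ) : Fin k → Fin n → ℝ :=
  fun i j => (if (j : ℕ) = i then 1 else 0) + if k ≤ (j : ℕ) then 1 / (k : ℝ) else 0

theorem cA_nonneg (n k : ℕ) (i : Fin k) (j : Fin n) : 0 ≤ cA n k i j := by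
  unfold cA
  have h1 : (0 : ℝ) ≤ 1 / (k : ℝ) := by positivity
  split_ifs <;> linarith

theorem cA_pos (n k : ℕ) (hk : 1 ≤ k) (j : Fin n) : ∃ i, 0 < cA n k i j := by
  have hk' : (0 : ℝ) < 1 / (k : ℝ) := by
    have : (0 : ℝ) < k := by exact_mod_cast hk
    positivity
  by_cases h : k ≤ (j : ℕ)
  · refine ⟨⟨0, hk⟩, ?_⟩
    unfold cA
    rw [if_pos h]
    split_ifs <;> linarith
  · refine ⟨⟨j, by omega⟩, ?_⟩
    unfold cA
    rw [if_neg h, if_pos rfl]
    norm_num

theorem volume_base (k : ℕ) : volume (body (cA k k)) ≤ 1 := by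
  have h1 : body (cA k k) ⊆ Set.pi Set.univ fun _ : Fin k => Set.Icc (0 : ℝ) 1 := by
    intro w hw i _
    refine ⟨hw.1 i, ?_⟩
    refine le_trans ?_ (hw.2 i)
    have h2 : w i = cA k k i i * w i := by
      unfold cA
      rw [if_pos rfl, if_neg (by omega)]
      ring
    rw [h2]
    exact Finset.single_le_sum (f := fun j => cA k k i j * w j)
      (fun j _ => mul_nonneg (cA_nonneg k k i j) (hw.1 j)) (Finset.mem_univ i)
  refine (measure_mono h1).trans (le_of_eq ?_)
  rw [volume_pi_pi]
  simp

theorem volume_step (n k : ℕ) (hk : 1 ≤ k) (hkn : k ≤ n) :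
    volume (body (cA (n + 1) k)) ≤
      ENNReal.ofReal ((k : ℝ) / (n + 1)) * volume (body (cA n k)) := by
  classical
  have hk0 : (0 : ℝ) < k := by exact_mod_cast hk
  set Ω := body (cA (n + 1) k) with hΩ
  set x : Fin (n + 1) → ℝ := Pi.single (Fin.last n) (k : ℝ) with hx
  have hxl : x (Fin.last n) = k := by rw [hx, Pi.single_eq_same]
  have hxs : ∀ j : Fin n, x ((Fin.last n).succAbove j) = 0 := by
    intro j
    rw [hx, Pi.single_eq_of_ne (Fin.succAbove_ne _ _)]
  have hm : MeasurableSet Ω :=
    (profile_ab (isConvexProfile_body (cA_nonneg (n + 1) k) (cA_pos (n + 1) k hk))).meas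
  -- the coefficients
  have hAs : ∀ (i : Fin k) (j : Fin n), cA (n + 1) k i ((Fin.last n).succAbove j) = cA n k i j := by
    intro i j
    rw [Fin.succAbove_last]
    rfl
  have hAl : ∀ i : Fin k, cA (n + 1) k i (Fin.last n) = 1 / (k : ℝ) := by
    intro i
    have h1 := i.2
    unfold cA
    rw [if_neg (by rw [Fin.val_last]; omega), if_pos (by rw [Fin.val_last]; omega), zero_add]
  have hsum : ∀ (i : Fin k) (z : Fin (n + 1) → ℝ), ∑ j, cA (n + 1) k i j * z j =
      z (Fin.last n) / k + ∑ j : Fin n, cA n k i j * z ((Fin.last n).succAbove j) := by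
    intro i z
    rw [Fin.sum_univ_succAbove _ (Fin.last n), hAl]
    rw [Finset.sum_congr rfl fun j _ => by rw [hAs i j]]
    ring
  have hsec : sec Ω (Fin.last n) ⊆ body (cA n k) := by
    intro y hy
    have hy' : (Fin.last n).insertNth (0 : ℝ) y ∈ Ω := hy
    refine ⟨fun j => ?_, fun i => ?_⟩
    · have h1 := hy'.1 ((Fin.last n).succAbove j)
      rwa [Fin.insertNth_apply_succAbove] at h1
    · have h1 := hy'.2 i
      rw [hsum] at h1
      simp only [Fin.insertNth_apply_same, Fin.insertNth_apply_succAbove, zero_div, zero_add] at h1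
      exact h1
  have hsub : Ω ⊆ cone Ω x (Fin.last n) ∪ {z | z (Fin.last n) = k} := by
    intro z hz
    have hz0 := hz.1 (Fin.last n)
    have hnn : ∀ i, 0 ≤ ∑ j : Fin n, cA n k i j * z ((Fin.last n).succAbove j) := fun i =>
      Finset.sum_nonneg fun j _ => mul_nonneg (cA_nonneg n k i j) (hz.1 _)
    have hzk : z (Fin.last n) ≤ k := by
      have h1 := hz.2 ⟨0, hk⟩
      rw [hsum] at h1
      have h2 := hnn ⟨0, hk⟩
      have h3 : z (Fin.last n) / k ≤ 1 := by linarith
      exact (div_le_one hk0).1 h3
    rcases hzk.eq_or_lt with h1 | h1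
    · exact Or.inr h1
    · left
      refine ⟨⟨hz0, by rw [hxl]; exact h1⟩, ?_⟩
      have ht : 0 < 1 - z (Fin.last n) / k := by
        rw [sub_pos, div_lt_one hk0]
        exact h1
      show (Fin.last n).insertNth (0 : ℝ) _ ∈ Ω
      rw [hxl]
      refine ⟨fun j => ?_, fun i => ?_⟩
      · refine Fin.succAboveCases (Fin.last n) ?_ (fun l => ?_) j
        · rw [Fin.insertNth_apply_same]
        · rw [Fin.insertNth_apply_succAbove, hxs, mul_zero, sub_zero]
          exact div_nonneg (hz.1 _) ht.le
      · rw [hsum, Fin.insertNth_apply_same, zero_div, zero_add]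
        have h2 := hz.2 i
        rw [hsum] at h2
        have h3 : ∀ j : Fin n, cA n k i j * ((Fin.last n).insertNth (0 : ℝ)
            (fun j : Fin n => (z ((Fin.last n).succAbove j) - z (Fin.last n) / k *
              x ((Fin.last n).succAbove j)) / (1 - z (Fin.last n) / k)) : Fin (n + 1) → ℝ)
              ((Fin.last n).succAbove j) =
            (cA n k i j * z ((Fin.last n).succAbove j)) / (1 - z (Fin.last n) / k) := by
          intro j
          rw [Fin.insertNth_apply_succAbove, hxs, mul_zero, sub_zero]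
          ring
        rw [Finset.sum_congr rfl fun j _ => h3 j, ← Finset.sum_div, div_le_one ht]
        linarith
  have hnull : volume {z : Fin (n + 1) → ℝ | z (Fin.last n) = k} = 0 :=
    Measure.pi_hyperplane (fun _ : Fin (n + 1) => (volume : Measure ℝ)) (Fin.last n) (k : ℝ)
  calc volume Ω ≤ volume (cone Ω x (Fin.last n) ∪ {z | z (Fin.last n) = k}) := measure_mono hsub
    _ ≤ volume (cone Ω x (Fin.last n)) + volume {z : Fin (n + 1) → ℝ | z (Fin.last n) = k} :=
      measure_union_le _ _
    _ = ENNReal.ofReal ((k : ℝ) / (n + 1)) * volume (sec Ω (Fin.last n)) := by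
      rw [hnull, add_zero, volume_cone hm, hxl]
    _ ≤ _ := by
      gcongr

theorem volume_body_le (n k : ℕ) (hk : 1 ≤ k) (hkn : k ≤ n) :
    volume (body (cA n k)) ≤
      ENNReal.ofReal ((k : ℝ) ^ (n - k) * (k.factorial : ℝ) / (n.factorial : ℝ)) := by
  induction n, hkn using Nat.le_induction with
  | base =>
    refine (volume_base k).trans (le_of_eq ?_)
    have hf : (k.factorial : ℝ) ≠ 0 := by exact_mod_cast k.factorial_ne_zero
    rw [Nat.sub_self, pow_zero, one_mul, div_self hf, ENNReal.ofReal_one]
  | succ n hkn ih =>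
    refine (volume_step n k hk hkn).trans ?_
    refine (mul_le_mul_right ih _).trans (le_of_eq ?_)
    rw [← ENNReal.ofReal_mul (by positivity)]
    congr 1
    have hf : (n.factorial : ℝ) ≠ 0 := by exact_mod_cast n.factorial_ne_zero
    rw [show n + 1 - k = (n - k) + 1 by omega, pow_succ, Nat.factorial_succ]
    push_cast
    field_simp

/-- the cone body is extremal for `k ≤ n` -/
theorem ratio_cone {n k : ℕ} (hk : 1 ≤ k) (hkn : k ≤ n) (c : Set (Fin n → ℂ) → ℝ≥0∞)
    (hcap : IsCapacity k c) (hc : GuttHutchingsLower k c) :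
    IsConvexToricDomain (toricSet (body (cA n k))) ∧
      ratio c (toricSet (body (cA n k))) =
        ENNReal.ofReal (((k : ℝ) ^ k / (k.factorial : ℝ)) ^ ((1 : ℝ) / n)) := by
  classical
  have hk0 : (0 : ℝ) < k := by exact_mod_cast hk
  have hn : 1 ≤ n := hk.trans hkn
  have hn0 : (n : ℝ) ≠ 0 := by
    have : n ≠ 0 := by omega
    exact_mod_cast this
  have hprof := isConvexProfile_body (cA_nonneg n k) (cA_pos n k hk)
  have hX : IsConvexToricDomain (toricSet (body (cA n k))) := ⟨_, hprof, rfl⟩
  refine ⟨hX, le_antisymm ?_ ?_⟩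
  · have h1 := ratio_le hn hk c hcap _ hX
    rwa [min_eq_left hkn] at h1
  · have hval : (k : ℝ≥0∞) ≤ c (toricSet (body (cA n k))) := by
      refine le_value_body (cA_nonneg n k) (cA_pos n k hk) c hc fun v hv => ?_
      by_cases h : ∃ j : Fin n, k ≤ (j : ℕ) ∧ v j ≠ 0
      · obtain ⟨j, hj, hvj⟩ := h
        refine ⟨Pi.single j (k : ℝ), ⟨fun l => ?_, fun i => ?_⟩, ?_⟩
        · by_cases hl : l = j
          · rw [hl, Pi.single_eq_same]
            exact hk0.le
          · rw [Pi.single_eq_of_ne hl]
        · rw [Finset.sum_eq_single j]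
          · rw [Pi.single_eq_same]
            unfold cA
            have h1 := i.2
            rw [if_neg (by omega), if_pos hj, zero_add]
            rw [one_div_mul_cancel hk0.ne']
          · intro l _ hl
            rw [Pi.single_eq_of_ne hl, mul_zero]
          · intro h1
            exact absurd (Finset.mem_univ j) h1
        · rw [Finset.sum_eq_single j]
          · rw [Pi.single_eq_same]
            have h1 : (1 : ℝ) ≤ v j := by exact_mod_cast Nat.one_le_iff_ne_zero.2 hvj
            nlinarith
          · intro l _ hl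
            rw [Pi.single_eq_of_ne hl, mul_zero]
          · intro h1
            exact absurd (Finset.mem_univ j) h1
      · push Not at h
        refine ⟨fun j => if (j : ℕ) < k then 1 else 0, ⟨fun l => ?_, fun i => ?_⟩, ?_⟩
        · show (0 : ℝ) ≤ if (l : ℕ) < k then 1 else 0
          split_ifs <;> norm_num
        · have h1 : ∀ j : Fin n, cA n k i j * (if (j : ℕ) < k then (1 : ℝ) else 0) =
              if (j : ℕ) = i then 1 else 0 := by
            intro j
            have h2 := i.2
            unfold cA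
            split_ifs with h3 h4 h5 h6 h7 h8 <;> first | omega | norm_num
          rw [Finset.sum_congr rfl fun j _ => h1 j]
          have h2 : ∑ j : Fin n, (if (j : ℕ) = i then (1 : ℝ) else 0) = 1 := by
            have h3 : (i : ℕ) < n := lt_of_lt_of_le i.2 hkn
            rw [Finset.sum_eq_single (⟨i, h3⟩ : Fin n)]
            · simp
            · intro l _ hl
              rw [if_neg]
              intro h4
              exact hl (Fin.ext h4)
            · intro h4
              exact absurd (Finset.mem_univ _) h4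
          rw [h2]
        · have h1 : ∀ j : Fin n, (v j : ℝ) * (if (j : ℕ) < k then (1 : ℝ) else 0) = v j := by
            intro j
            by_cases h2 : (j : ℕ) < k
            · rw [if_pos h2, mul_one]
            · rw [if_neg h2, mul_zero, h j (by omega)]
              simp
          rw [Finset.sum_congr rfl fun j _ => h1 j, ← Nat.cast_sum, hv]
    have hvol : vol (toricSet (body (cA n k))) ≤
        ENNReal.ofReal ((k : ℝ) ^ (n - k) * (k.factorial : ℝ)) := by
      unfold vol
      rw [volume_toricSet (profile_ab hprof).meas hprof.nonneg]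
      refine (mul_le_mul_right (volume_body_le n k hk hkn) _).trans (le_of_eq ?_)
      rw [← ENNReal.ofReal_natCast, ← ENNReal.ofReal_mul (by positivity)]
      congr 1
      have hf : (n.factorial : ℝ) ≠ 0 := by exact_mod_cast n.factorial_ne_zero
      field_simp
    have hV : (0 : ℝ) < (k : ℝ) ^ (n - k) * (k.factorial : ℝ) := by positivity
    unfold ratio
    refine le_trans ?_ (ENNReal.div_le_div hval (ENNReal.rpow_le_rpow hvol (by positivity)))
    rw [ENNReal.ofReal_rpow_of_pos hV, ← ENNReal.ofReal_natCast,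
      ← ENNReal.ofReal_div_of_pos (by positivity)]
    refine ENNReal.ofReal_le_ofReal (le_of_eq ?_)
    have h1 : ((k : ℝ) ^ k / (k.factorial : ℝ)) =
        (k : ℝ) ^ n / ((k : ℝ) ^ (n - k) * (k.factorial : ℝ)) := by
      have h2 : (k : ℝ) ^ n = (k : ℝ) ^ (n - k) * (k : ℝ) ^ k := by
        rw [← pow_add]
        congr 1
        omega
      rw [h2]
      field_simp
    rw [h1, Real.div_rpow (by positivity) hV.le, ← Real.rpow_natCast (k : ℝ) n,
      ← Real.rpow_mul hk0.le, mul_one_div_cancel hn0, Real.rpow_one]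

end Pool.Agent.Lib.MP_d1c05b_gt.PM
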