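import Pool.Agent.Lib.MP_d1c05b_gt.Ellip
import Pool.Agent.Lib.MP_d1c05b_gt.Numeric
import Pool.Agent.Lib.MP_d1c05b_gt.PM.Cone

/-!
# The number `κ(n)`

`κ(n)` is the least `k ≥ 2` with `2^{k-1} n! ≤ k^n`; it is at most `n`, with equality for
`n = 2, 3, 4` only.
-/

open MeasureTheory
open scoped ENNReal

namespace Pool.Agent.Lib.MP_d1c05b_gt.PM

variable {n : ℕ}

/-- the parameters `(1, …, 1, 2, …, 2)`, with `k - 1` ones -/
noncomputable def eb (n k : ℕ) (j : Fin n) : ℝ := if (j : ℕ) < k - 1 then 1 else 2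

theorem eb_pos (n k : ℕ) (j : Fin n) : 0 < eb n k j := by
  unfold eb
  split_ifs <;> norm_num

theorem prod_eb {n k : ℕ} (hkn : k ≤ n) : ∏ j, eb n k j = 2 ^ (n - (k - 1)) := by
  unfold eb
  rw [Finset.prod_ite, Finset.prod_const_one, one_mul, Finset.prod_const]
  congr 1
  have h1 : ∀ m : ℕ, m ≤ n → (Finset.univ.filter fun j : Fin n => ¬ (j : ℕ) < m).card = n - m := by
    intro m hm
    have h2 := Finset.card_filter_add_card_filter_not (s := (Finset.univ : Finset (Fin n)))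
      (fun j : Fin n => (j : ℕ) < m)
    have h3 : (Finset.univ.filter fun j : Fin n => (j : ℕ) < m).card = m := by
      have h4 : (Finset.univ.filter fun j : Fin n => (j : ℕ) < m).card = min n m :=
        Fin.card_filter_val_lt
      rw [h4]
      omega
    rw [Finset.card_univ, Fintype.card_fin, h3] at h2
    omega
  exact h1 (k - 1) (by omega)

theorem two_le_kthTerm {n k : ℕ} (hk : 1 ≤ k) :
    (2 : ℝ≥0∞) ≤ kthTerm k fun j => ENNReal.ofReal (eb n k j) := by
  classical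
  unfold kthTerm
  refine le_sInf fun t ht => ?_
  by_contra hcon
  push Not at hcon
  have hsub : (fun p : ℕ × Fin n => (p.1, (p.2 : ℕ))) '' {p : ℕ × Fin n | 1 ≤ p.1 ∧
      ENNReal.ofReal (eb n k p.2) ≠ ⊤ ∧ (p.1 : ℝ≥0∞) * ENNReal.ofReal (eb n k p.2) ≤ t} ⊆
      (((Finset.range (k - 1)).image fun m : ℕ => ((1, m) : ℕ × ℕ)) : Finset (ℕ × ℕ)) := by
    rintro _ ⟨⟨m, j⟩, ⟨h1, -, h3⟩, rfl⟩
    have h1' : 1 ≤ m := h1
    have h3' : (m : ℝ≥0∞) * ENNReal.ofReal (eb n k j) < 2 := lt_of_le_of_lt h3 hcon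
    rw [← ENNReal.ofReal_natCast, ← ENNReal.ofReal_mul (by positivity),
      ← ENNReal.ofReal_ofNat 2, ENNReal.ofReal_lt_ofReal_iff (by norm_num)] at h3'
    have hm1 : (1 : ℝ) ≤ m := by exact_mod_cast h1'
    have hj : (j : ℕ) < k - 1 := by
      by_contra h4
      unfold eb at h3'
      rw [if_neg h4] at h3'
      linarith
    unfold eb at h3'
    rw [if_pos hj, mul_one] at h3'
    have hm3 : (m : ℝ) < 2 := h3'
    have hm2 : m < 2 := by exact_mod_cast hm3
    have hm : m = 1 := by omega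
    subst hm
    rw [Finset.mem_coe, Finset.mem_image]
    exact ⟨j, Finset.mem_range.2 hj, rfl⟩
  have hinj : Function.Injective fun p : ℕ × Fin n => (p.1, (p.2 : ℕ)) := by
    rintro ⟨a, b⟩ ⟨a', b'⟩ h
    simp only [Prod.mk.injEq] at h
    rw [h.1, Fin.ext h.2]
  have h5 : (k : ℕ∞) ≤ ((k - 1 : ℕ) : ℕ∞) := by
    refine le_trans ht ?_
    rw [← hinj.encard_image]
    refine (Set.encard_le_encard hsub).trans ?_
    rw [Set.encard_coe_eq_coe_finsetCard]
    have h7 := Finset.card_image_le (s := Finset.range (k - 1))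
      (f := fun m : ℕ => ((1, m) : ℕ × ℕ))
    rw [Finset.card_range] at h7
    exact_mod_cast h7
  have h6 : k ≤ k - 1 := by exact_mod_cast h5
  omega

theorem ellipsoidMax_ge [NeZero n] {k : ℕ} (hk : 1 ≤ k) (hkn : k ≤ n)
    (c : Set (Fin n → ℂ) → ℝ≥0∞) (hc : IsCapacity k c) :
    ENNReal.ofReal (((2 : ℝ) ^ (k - 1)) ^ ((1 : ℝ) / n)) ≤ ellipsoidMax c := by
  have hn0 : (n : ℝ) ≠ 0 := by exact_mod_cast NeZero.ne n
  have hne : ∀ j, 0 < ENNReal.ofReal (eb n k j) ∧ ENNReal.ofReal (eb n k j) ≠ ⊤ := fun j =>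
    ⟨ENNReal.ofReal_pos.2 (eb_pos n k j), ENNReal.ofReal_ne_top⟩
  refine le_trans ?_ (le_iSup₂_of_le (fun j => ENNReal.ofReal (eb n k j)) hne le_rfl)
  unfold ratio
  rw [hc.ellipsoids _ (fun j => (hne j).1) ⟨0, (hne 0).2⟩, vol_ellipsoid _ (eb_pos n k),
    prod_eb hkn, ENNReal.ofReal_rpow_of_pos (by positivity)]
  refine le_trans ?_ (ENNReal.div_le_div_right (two_le_kthTerm hk) _)
  rw [← ENNReal.ofReal_ofNat 2, ← ENNReal.ofReal_div_of_pos (by positivity)]
  refine ENNReal.ofReal_le_ofReal (le_of_eq ?_)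
  have h1 : (2 : ℝ) ^ (k - 1) = 2 ^ n / 2 ^ (n - (k - 1)) := by
    rw [eq_div_iff (by positivity), ← pow_add]
    congr 1
    omega
  rw [h1, Real.div_rpow (by positivity) (by positivity), ← Real.rpow_natCast 2 n,
    ← Real.rpow_mul (by norm_num), mul_one_div_cancel hn0, Real.rpow_one]

theorem ratio_polydisk_le [NeZero n] {k : ℕ} (c : Set (Fin n → ℂ) → ℝ≥0∞)
    (hc : IsCapacity k c) :
    ratio c (polydisk n) ≤ ENNReal.ofReal (((k : ℝ) ^ n / n.factorial) ^ ((1 : ℝ) / n)) := by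
  have hn' : (n : ℝ) ≠ 0 := by exact_mod_cast NeZero.ne n
  have hf : (0 : ℝ) < n.factorial := by positivity
  unfold ratio
  rw [vol_polydisk]
  refine le_trans (ENNReal.div_le_div_right (capacity_polydisk_le c hc) _) (le_of_eq ?_)
  rw [← ENNReal.ofReal_natCast n.factorial, ENNReal.ofReal_rpow_of_pos hf,
    ← ENNReal.ofReal_natCast, ← ENNReal.ofReal_div_of_pos (by positivity)]
  congr 1
  rw [Real.div_rpow (by positivity) hf.le, ← Real.rpow_natCast, ← Real.rpow_mul (by positivity),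
    mul_one_div_cancel hn', Real.rpow_one]

/-- the value of the polydisk -/
theorem le_polydisk [NeZero n] {k : ℕ} (c : Set (Fin n → ℂ) → ℝ≥0∞)
    (hc : GuttHutchingsLower k c) : (k : ℝ≥0∞) ≤ c (polydisk n) := by
  rw [polydisk_eq]
  exact le_value_cutCube (Nat.one_le_iff_ne_zero.2 (NeZero.ne n)) (Or.inr le_rfl) c hc

/-- the cone body beats the polydisk for `1 ≤ k < n` -/
theorem ratio_polydisk_lt_cone [NeZero n] {k : ℕ} (hk : 1 ≤ k) (hkn : k < n)
    (c : Set (Fin n → ℂ) → ℝ≥0∞) (hcap : IsCapacity k c) (hc : GuttHutchingsLower k c) :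
    ratio c (polydisk n) < ratio c (toricSet (body (cA n k))) := by
  rw [(ratio_cone hk hkn.le c hcap hc).2]
  refine (ratio_polydisk_le c hcap).trans_lt ?_
  have hk0 : (0 : ℝ) < k := by exact_mod_cast hk
  have hn : (0 : ℝ) < (1 : ℝ) / n := by
    have : (0 : ℝ) < n := by exact_mod_cast (by omega : 0 < n)
    positivity
  rw [ENNReal.ofReal_lt_ofReal_iff (by positivity)]
  refine Real.rpow_lt_rpow (by positivity) ?_ hn
  rw [div_lt_div_iff₀ (by positivity) (by positivity)]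
  have h1 : k.factorial * (k + 1) ^ (n - k) ≤ n.factorial := by
    have h2 := Nat.factorial_mul_pow_le_factorial (m := k) (n := n - k)
    rwa [show k + (n - k) = n by omega] at h2
  have h3 : k ^ (n - k) < (k + 1) ^ (n - k) := Nat.pow_lt_pow_left (by omega) (by omega)
  have h4 : k ^ (n - k) * k.factorial < n.factorial := by
    calc k ^ (n - k) * k.factorial < (k + 1) ^ (n - k) * k.factorial :=
          Nat.mul_lt_mul_of_pos_right h3 k.factorial_pos
      _ = k.factorial * (k + 1) ^ (n - k) := mul_comm _ _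
      _ ≤ _ := h1
  have h5 : (k : ℝ) ^ n = (k : ℝ) ^ (n - k) * (k : ℝ) ^ k := by
    rw [← pow_add]
    congr 1
    omega
  have h6 : ((k ^ (n - k) * k.factorial : ℕ) : ℝ) < (n.factorial : ℝ) := by exact_mod_cast h4
  push_cast at h6
  rw [h5]
  have h7 : (0 : ℝ) < (k : ℝ) ^ k := by positivity
  nlinarith

/-! ### Arithmetic -/

theorem two_mul_pow_le (k n : ℕ) (hk : 1 ≤ k) (hkn : k ≤ n) : 2 * k ^ n ≤ (k + 1) ^ n := by
  have hk0 : (0 : ℝ) < k := by exact_mod_cast hk
  have h1 := one_add_mul_le_pow (a := (1 : ℝ) / k) (by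
    have : (0 : ℝ) ≤ 1 / k := by positivity
    linarith) n
  have h2 : (1 : ℝ) ≤ n * (1 / k) := by
    rw [mul_one_div, one_le_div hk0]
    exact_mod_cast hkn
  have h3 : ((k : ℝ) + 1) ^ n = (1 + 1 / (k : ℝ)) ^ n * (k : ℝ) ^ n := by
    rw [← mul_pow]
    congr 1
    field_simp
  have h4 : 2 * (k : ℝ) ^ n ≤ ((k : ℝ) + 1) ^ n := by
    rw [h3]
    exact mul_le_mul_of_nonneg_right (by linarith) (by positivity)
  exact_mod_cast h4

theorem kap_mono (n m : ℕ) (hm : 1 ≤ m) (h : 2 ^ (m - 1) * n.factorial ≤ m ^ n) :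
    ∀ k, m ≤ k → k ≤ n → 2 ^ (k - 1) * n.factorial ≤ k ^ n := by
  intro k hk
  induction k, hk using Nat.le_induction with
  | base => exact fun _ => h
  | succ k hk ih =>
    intro hkn
    have h1 := ih (by omega)
    have h2 := two_mul_pow_le k n (by omega) (by omega)
    have h3 : 2 ^ (k + 1 - 1) = 2 * 2 ^ (k - 1) := by
      rw [← pow_succ']
      congr 1
      omega
    rw [h3]
    calc 2 * 2 ^ (k - 1) * n.factorial = 2 * (2 ^ (k - 1) * n.factorial) := by ring
      _ ≤ 2 * k ^ n := Nat.mul_le_mul_left 2 h1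
      _ ≤ _ := h2

theorem kap_self (n : ℕ) (hn : 1 ≤ n) : 2 ^ (n - 1) * n.factorial ≤ n ^ n := by
  induction n, hn using Nat.le_induction with
  | base => simp
  | succ n hn ih =>
    have h2 := two_mul_pow_le n n hn le_rfl
    have h3 : 2 ^ (n + 1 - 1) = 2 * 2 ^ (n - 1) := by
      rw [← pow_succ']
      congr 1
      omega
    rw [h3, Nat.factorial_succ]
    calc 2 * 2 ^ (n - 1) * ((n + 1) * n.factorial)
        = 2 * (n + 1) * (2 ^ (n - 1) * n.factorial) := by ring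
      _ ≤ 2 * (n + 1) * n ^ n := Nat.mul_le_mul_left _ ih
      _ = (n + 1) * (2 * n ^ n) := by ring
      _ ≤ (n + 1) * (n + 1) ^ n := Nat.mul_le_mul_left _ h2
      _ = (n + 1) ^ (n + 1) := by rw [← pow_succ']

/-- the least `k ≥ 2` with `2^{k-1} n! ≤ k^n` -/
theorem exists_kap (n : ℕ) (hn : 2 ≤ n) :
    ∃ κ, IsLeast {k : ℕ | 2 ≤ k ∧ 2 ^ (k - 1) * n.factorial ≤ k ^ n} κ ∧ κ ≤ n ∧
      (κ < n ↔ 5 ≤ n) := by
  classical
  have hex : ∃ k : ℕ, 2 ≤ k ∧ 2 ^ (k - 1) * n.factorial ≤ k ^ n := ⟨n, hn, kap_self n (by omega)⟩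
  refine ⟨Nat.find hex, ⟨Nat.find_spec hex, fun m hm => Nat.find_min' hex hm⟩,
    Nat.find_min' hex ⟨hn, kap_self n (by omega)⟩, ?_, ?_⟩
  · intro hlt
    by_contra h5
    obtain ⟨h1, h2⟩ := Nat.find_spec hex
    set κ := Nat.find hex
    have hcases : (n = 2 ∨ n = 3 ∨ n = 4) := by omega
    rcases hcases with h | h | h
    · omega
    · subst h
      have hk : κ = 2 := by omega
      rw [hk] at h2
      norm_num [Nat.factorial] at h2
    · subst h
      have hk : κ = 2 ∨ κ = 3 := by omega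
      rcases hk with hk | hk
      · rw [hk] at h2
        norm_num [Nat.factorial] at h2
      · rw [hk] at h2
        norm_num [Nat.factorial] at h2
  · intro h5
    have h1 : Nat.find hex ≤ n - 1 := by
      refine Nat.find_min' hex ⟨by omega, ?_⟩
      have h2 := two_pow_mul_factorial_le (n - 1) (by omega)
      rw [show n - 1 + 1 = n by omega] at h2
      exact_mod_cast h2
    omega

/-- the number `κ(n)` -/
theorem isKappa [NeZero n] (hn : 2 ≤ n) (c : ℕ → Set (Fin n → ℂ) → ℝ≥0∞)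
    (hcap : ∀ k, 1 ≤ k → IsCapacity k (c k)) (hP : ∀ k : ℕ, 1 ≤ k → (k : ℝ≥0∞) ≤ c k (polydisk n))
    {κ : ℕ} (hκ : IsLeast {k : ℕ | 2 ≤ k ∧ 2 ^ (k - 1) * n.factorial ≤ k ^ n} κ) :
    IsKappa c κ := by
  have hf : (0 : ℝ) < n.factorial := by positivity
  obtain ⟨⟨hκ2, hκ3⟩, hmin⟩ := hκ
  refine ⟨⟨hκ2, fun k hk => ?_⟩, fun m hm => ?_⟩
  · have hk' : κ ≤ k := hk
    have hk1 : 1 ≤ k := by omega
    rcases Nat.lt_or_ge k n with hkn | hkn
    · have h1 := kap_mono n κ (by omega) hκ3 k hk hkn.le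
      refine le_trans ?_ (ratio_polydisk_ge (by omega) (c k) (hP k hk1))
      refine (ellipsoidMax_le k (c k) (hcap k hk1) (2 ^ (k - 1)) (by positivity)
        (fun m hm hs => prod_le_two_pow k m hm hs)).trans (ENNReal.ofReal_le_ofReal ?_)
      refine Real.rpow_le_rpow (by positivity) ?_ (by positivity)
      rw [le_div_iff₀ hf]
      exact_mod_cast h1
    · unfold ellipsoidMax
      refine iSup₂_le fun a ha => ?_
      have hab : a = fun j => ENNReal.ofReal (a j).toReal := by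
        funext j
        exact (ENNReal.ofReal_toReal (ha j).2).symm
      rw [hab]
      exact ratio_le_polydisk (by omega) hkn (c k) (hcap k hk1)
        (hP k hk1) _ (isConvexToricDomain_ellipsoid _
          fun j => ENNReal.toReal_pos (ha j).1.ne' (ha j).2)
  · by_contra hlt
    push Not at hlt
    obtain ⟨hm2, hm3⟩ := hm
    have hκn : κ ≤ n := hmin ⟨hn, kap_self n (by omega)⟩
    have h1 := hm3 (κ - 1) (by omega)
    have h2 : ¬ (2 ^ (κ - 1 - 1) * n.factorial ≤ (κ - 1) ^ n) := by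
      intro h3
      have h4 := hmin ⟨(by omega : 2 ≤ κ - 1), h3⟩
      omega
    apply h2
    have h5 := (ellipsoidMax_ge (by omega) (by omega) (c (κ - 1)) (hcap (κ - 1) (by omega))).trans
      (h1.trans (ratio_polydisk_le (c (κ - 1)) (hcap (κ - 1) (by omega))))
    have hn1 : (0 : ℝ) < (1 : ℝ) / n := by
      have : (0 : ℝ) < n := by exact_mod_cast (by omega : 0 < n)
      positivity
    rw [ENNReal.ofReal_le_ofReal_iff (by positivity),
      Real.rpow_le_rpow_iff (by positivity) (by positivity) hn1, le_div_iff₀ hf] at h5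
    exact_mod_cast h5

end Pool.Agent.Lib.MP_d1c05b_gt.PM
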