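import Pool.Agent.Lib.MP_d1c05b_gt.Defs

/-!
# The volume of a toric set

`|X_Ω| = |Ω|` for measurable `Ω ⊆ [0,∞)ⁿ`.
-/

open MeasureTheory

namespace Pool.Agent.Lib.MP_d1c05b_gt.PM

theorem volume_disc (t : ℝ) :
    volume {z : ℂ | Real.pi * ‖z‖ ^ 2 ≤ t} = ENNReal.ofReal t := by
  have hpi := Real.pi_pos
  rcases lt_or_ge t 0 with ht | ht
  · have h1 : {z : ℂ | Real.pi * ‖z‖ ^ 2 ≤ t} = ∅ := by
      ext z
      simp only [Set.mem_ofPred_eq, Set.mem_empty_iff_false, iff_false, not_le]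
      exact ht.trans_le (by positivity)
    rw [h1, measure_empty, ENNReal.ofReal_of_nonpos ht.le]
  · have h1 : {z : ℂ | Real.pi * ‖z‖ ^ 2 ≤ t} = Metric.closedBall (0 : ℂ) (Real.sqrt (t / Real.pi)) := by
      ext z
      rw [Metric.mem_closedBall, dist_zero_right, Real.le_sqrt (norm_nonneg _) (by positivity),
        le_div_iff₀ hpi, mul_comm]
      rfl
    rw [h1, Complex.volume_closedBall, ← ENNReal.ofReal_pow (Real.sqrt_nonneg _),
      Real.sq_sqrt (by positivity)]
    have h2 : ((NNReal.pi : NNReal) : ENNReal) = ENNReal.ofReal Real.pi := by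
      rw [ENNReal.ofReal, ← NNReal.coe_real_pi, Real.toNNReal_coe]
    rw [h2, ← ENNReal.ofReal_mul (by positivity)]
    congr 1
    field_simp

theorem measurable_disc : Measurable fun z : ℂ => Real.pi * ‖z‖ ^ 2 := by fun_prop

theorem map_disc :
    MeasurePreserving (fun z : ℂ => Real.pi * ‖z‖ ^ 2) volume (volume.restrict (Set.Ici (0 : ℝ))) := by
  refine ⟨measurable_disc, ?_⟩
  symm
  refine Measure.ext_of_Ioc _ _ fun a b hab => ?_
  have hIic : ∀ t : ℝ, (volume.restrict (Set.Ici (0 : ℝ))) (Set.Iic t) = ENNReal.ofReal t := by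
    intro t
    rw [Measure.restrict_apply measurableSet_Iic, Set.inter_comm, Set.Ici_inter_Iic,
      Real.volume_Icc, sub_zero]
  have hIic' : ∀ t : ℝ, (Measure.map (fun z : ℂ => Real.pi * ‖z‖ ^ 2) volume) (Set.Iic t) =
      ENNReal.ofReal t := by
    intro t
    rw [Measure.map_apply measurable_disc measurableSet_Iic]
    exact volume_disc t
  have hI : Set.Ioc a b = Set.Iic b \ Set.Iic a := by
    ext x
    simp only [Set.mem_Ioc, Set.mem_sdiff, Set.mem_Iic, not_le]
    exact and_comm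
  rw [hI, measure_sdiff (Set.Iic_subset_Iic.2 hab.le) nullMeasurableSet_Iic (by
      rw [hIic]; exact ENNReal.ofReal_ne_top), measure_sdiff (Set.Iic_subset_Iic.2 hab.le)
      nullMeasurableSet_Iic (by rw [hIic']; exact ENNReal.ofReal_ne_top), hIic, hIic, hIic', hIic']

theorem volume_toricSet {n : ℕ} {Ω : Set (Fin n → ℝ)} (hm : MeasurableSet Ω)
    (h0 : ∀ x ∈ Ω, ∀ j, 0 ≤ x j) : volume (toricSet Ω) = volume Ω := by
  have h1 := measurePreserving_pi (fun _ : Fin n => (volume : Measure ℂ))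
    (fun _ : Fin n => (volume.restrict (Set.Ici (0 : ℝ)))) fun _ => map_disc
  have h2 : volume (toricSet Ω) =
      (Measure.pi fun _ : Fin n => (volume.restrict (Set.Ici (0 : ℝ)))) Ω := by
    rw [← h1.measure_preimage hm.nullMeasurableSet]
    rfl
  rw [h2, ← Measure.restrict_pi_pi (fun _ : Fin n => (volume : Measure ℝ)) fun _ => Set.Ici (0 : ℝ),
    Measure.restrict_apply hm]
  have h3 : Ω ∩ Set.univ.pi (fun _ : Fin n => Set.Ici (0 : ℝ)) = Ω := by
    refine Set.inter_eq_left.2 fun x hx => ?_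
    rw [Set.mem_univ_pi]
    exact h0 x hx
  rw [h3]
  rfl

end Pool.Agent.Lib.MP_d1c05b_gt.PM
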