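import Pool.Agent.Lib.MP_d1c05b_gt.Toric

/-!
# Upper bounds for capacities of toric sets by ellipsoids

If `∑ v_j w_j ≤ h` on `Ω`, `v ∈ ℕⁿ` with `|v| = k ≥ 1`, then `c_k(X_Ω) ≤ h`.
-/

open MeasureTheory
open scoped ENNReal

namespace Pool.Agent.Lib.MP_d1c05b_gt.PM

theorem capacity_le_pos {n : ℕ} {k : ℕ} (hk : 1 ≤ k) (c : Set (Fin n → ℂ) → ℝ≥0∞)
    (hc : IsCapacity k c) (Ω : Set (Fin n → ℝ)) (v : Fin n → ℕ)
    (hv : ∑ j, v j = k) (h : ℝ) (hh : 0 < h) (hΩ : ∀ w ∈ Ω, ∑ j, (v j : ℝ) * w j ≤ h) :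
    c (toricSet Ω) ≤ ENNReal.ofReal h := by
  classical
  have hh0 : ENNReal.ofReal h ≠ 0 := (ENNReal.ofReal_pos.2 hh).ne'
  have hht : ENNReal.ofReal h ≠ ⊤ := ENNReal.ofReal_ne_top
  set a : Fin n → ℝ≥0∞ := fun j => ENNReal.ofReal h / (v j : ℝ≥0∞) with ha
  have hsub : id '' (toricSet Ω) ⊆ ellipsoid a := by
    rw [Set.image_id]
    intro z hz
    have hz' : (fun j => Real.pi * ‖z j‖ ^ 2) ∈ Ω := hz
    have h1 : ∀ j, ENNReal.ofReal (Real.pi * ‖z j‖ ^ 2) / a j =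
        ENNReal.ofReal ((v j : ℝ) * (Real.pi * ‖z j‖ ^ 2) / h) := by
      intro j
      rw [ENNReal.ofReal_div_of_pos hh, ENNReal.ofReal_mul (Nat.cast_nonneg _),
        ENNReal.ofReal_natCast, ha]
      simp only
      rw [ENNReal.div_eq_inv_mul (a := ENNReal.ofReal (Real.pi * ‖z j‖ ^ 2)),
        ENNReal.inv_div (Or.inl (ENNReal.natCast_ne_top _)) (Or.inr hh0), mul_comm,
        ← mul_div_assoc, mul_comm (ENNReal.ofReal (Real.pi * ‖z j‖ ^ 2))]
    change ∑ j, ENNReal.ofReal (Real.pi * ‖z j‖ ^ 2) / a j ≤ 1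
    rw [Finset.sum_congr rfl fun j _ => h1 j, ← ENNReal.ofReal_sum_of_nonneg
      (fun j _ => div_nonneg (mul_nonneg (Nat.cast_nonneg _) (by
        have := Real.pi_pos
        positivity)) hh.le), ENNReal.ofReal_le_one, ← Finset.sum_div, div_le_one hh]
    exact hΩ _ hz'
  have hpos : ∀ j, 0 < a j := fun j =>
    ENNReal.div_pos hh0 (ENNReal.natCast_ne_top _)
  have hfin : ∃ j, a j ≠ ⊤ := by
    have h1 : ∃ j, v j ≠ 0 := by
      by_contra hcon
      push Not at hcon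
      have : ∑ j, v j = 0 := Finset.sum_eq_zero fun j _ => hcon j
      omega
    obtain ⟨j, hj⟩ := h1
    exact ⟨j, ENNReal.div_ne_top hht (by exact_mod_cast hj)⟩
  refine (hc.mono id _ _ isSymplectomorphism_id hsub).trans ?_
  rw [hc.ellipsoids a hpos hfin]
  apply sInf_le
  simp only [Set.mem_ofPred_eq]
  let F : Finset (ℕ × Fin n) := Finset.univ.biUnion fun j =>
    (Finset.Icc 1 (v j)).image fun m => (m, j)
  have hF : F.card = k := by
    rw [← hv, Finset.card_biUnion]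
    · refine Finset.sum_congr rfl fun j _ => ?_
      rw [Finset.card_image_of_injective _ (fun x y hxy => (Prod.mk.inj hxy).1)]
      simp
    · intro i _ j _ hij
      rw [Function.onFun, Finset.disjoint_left]
      intro p hp hq
      rw [Finset.mem_image] at hp hq
      obtain ⟨_, _, rfl⟩ := hp
      obtain ⟨_, _, h2⟩ := hq
      exact hij (Prod.mk.inj h2).2.symm
  have hsub2 : (F : Set (ℕ × Fin n)) ⊆ {p : ℕ × Fin n | 1 ≤ p.1 ∧ a p.2 ≠ ⊤ ∧
      (p.1 : ℝ≥0∞) * a p.2 ≤ ENNReal.ofReal h} := by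
    intro p hp
    rw [Finset.mem_coe, Finset.mem_biUnion] at hp
    obtain ⟨j, _, hp⟩ := hp
    rw [Finset.mem_image] at hp
    obtain ⟨m, hm, rfl⟩ := hp
    rw [Finset.mem_Icc] at hm
    have hvj : (v j : ℝ≥0∞) ≠ 0 := by
      have : v j ≠ 0 := by omega
      exact_mod_cast this
    refine ⟨hm.1, ENNReal.div_ne_top hht hvj, ?_⟩
    show (m : ℝ≥0∞) * (ENNReal.ofReal h / (v j : ℝ≥0∞)) ≤ ENNReal.ofReal h
    rw [← mul_div_assoc]
    refine ENNReal.div_le_of_le_mul ?_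
    rw [mul_comm]
    exact mul_le_mul_right (by exact_mod_cast hm.2) _
  calc (k : ℕ∞) = (F : Set (ℕ × Fin n)).encard := by
        rw [Set.encard_coe_eq_coe_finsetCard, hF]
    _ ≤ _ := Set.encard_le_encard hsub2

theorem capacity_le {n : ℕ} {k : ℕ} (hk : 1 ≤ k) (c : Set (Fin n → ℂ) → ℝ≥0∞)
    (hc : IsCapacity k c) (Ω : Set (Fin n → ℝ)) (v : Fin n → ℕ)
    (hv : ∑ j, v j = k) (h : ℝ) (hh : 0 ≤ h) (hΩ : ∀ w ∈ Ω, ∑ j, (v j : ℝ) * w j ≤ h) :
    c (toricSet Ω) ≤ ENNReal.ofReal h := by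
  refine ENNReal.le_of_forall_pos_le_add fun ε hε _ => ?_
  have hε' : (0 : ℝ) < ε := hε
  have h1 := capacity_le_pos hk c hc Ω v hv (h + ε) (by linarith)
    fun w hw => (hΩ w hw).trans (by linarith)
  rw [ENNReal.ofReal_add hh hε'.le, ENNReal.ofReal_coe_nnreal] at h1
  exact h1

end Pool.Agent.Lib.MP_d1c05b_gt.PM
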