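import Pool.Agent.Lib.MP_d1c05b_gt.PM.Meyer

/-!
# A lower bound for the volume of anti-blocking convex bodies

If for every nonempty set `S` of coordinates some point `w` of `Ω` has `∑_{i ∈ S} w_i ≥ c_{|S|}`,
then `|Ω| ≥ ∏_{m=1}^n c_m / m`.
-/

open MeasureTheory

namespace Pool.Agent.Lib.MP_d1c05b_gt.PM

/-- anti-blocking convex bodies -/
structure AB {n : ℕ} (Ω : Set (Fin n → ℝ)) : Prop where
  meas : MeasurableSet Ω
  conv : Convex ℝ Ω
  nonneg : ∀ w ∈ Ω, ∀ j, 0 ≤ w j
  zero : (0 : Fin n → ℝ) ∈ Ω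
  down : ∀ w ∈ Ω, ∀ v : Fin n → ℝ, (∀ j, 0 ≤ v j ∧ v j ≤ w j) → v ∈ Ω

theorem AB.sec {n : ℕ} {Ω : Set (Fin (n + 1) → ℝ)} (h : AB Ω) (i : Fin (n + 1)) :
    AB (PM.sec Ω i) where
  meas := measurableSet_sec h.meas i
  conv := by
    intro y hy z hz a b ha hb hab
    have h1 := h.conv hy hz ha hb hab
    show i.insertNth (0 : ℝ) (a • y + b • z) ∈ Ω
    have h2 : (i.insertNth (0 : ℝ) (a • y + b • z) : Fin (n + 1) → ℝ) =
        a • (i.insertNth (0 : ℝ) y : Fin (n + 1) → ℝ) +
          b • (i.insertNth (0 : ℝ) z : Fin (n + 1) → ℝ) := by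
      funext k
      refine Fin.succAboveCases i ?_ (fun j => ?_) k
      · simp
      · simp
    rw [h2]
    exact h1
  nonneg := by
    intro w hw j
    have h1 := h.nonneg _ hw (i.succAbove j)
    rw [Fin.insertNth_apply_succAbove] at h1
    exact h1
  zero := by
    show i.insertNth (0 : ℝ) (0 : Fin n → ℝ) ∈ Ω
    have h2 : (i.insertNth (0 : ℝ) (0 : Fin n → ℝ) : Fin (n + 1) → ℝ) = 0 := by
      funext k
      refine Fin.succAboveCases i ?_ (fun j => ?_) k
      · simp
      · simp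
    rw [h2]
    exact h.zero
  down := by
    intro w hw v hv
    refine h.down _ hw _ fun k => ?_
    refine Fin.succAboveCases i ?_ (fun j => ?_) k
    · simp
    · simp only [Fin.insertNth_apply_succAbove]
      exact hv j

theorem volume_ge (c : ℕ → ℝ) (hc : ∀ m, 0 ≤ c m) :
    ∀ (n : ℕ) (Ω : Set (Fin n → ℝ)), AB Ω →
      (∀ S : Finset (Fin n), S.Nonempty → ∃ w ∈ Ω, c S.card ≤ ∑ i ∈ S, w i) →
      ENNReal.ofReal (∏ m ∈ Finset.range n, c (m + 1) / ((m : ℝ) + 1)) ≤ volume Ω := by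
  intro n
  induction n with
  | zero =>
    intro Ω h _
    have h1 : Ω = Set.univ := by
      rw [Set.eq_univ_iff_forall]
      intro x
      rw [Subsingleton.elim x 0]
      exact h.zero
    rw [h1, volume_pi, Measure.pi_univ]
    simp
  | succ n ih =>
    intro Ω h hS
    obtain ⟨x, hx, hxc⟩ := hS Finset.univ Finset.univ_nonempty
    rw [Finset.card_univ, Fintype.card_fin] at hxc
    have h1 := meyer h.meas h.conv h.nonneg hx
    refine le_trans ?_ h1
    have h2 : ∀ i, ENNReal.ofReal (∏ m ∈ Finset.range n, c (m + 1) / ((m : ℝ) + 1)) ≤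
        volume (PM.sec Ω i) := by
      intro i
      refine ih _ (h.sec i) fun S hSne => ?_
      obtain ⟨w, hw, hwc⟩ := hS (S.map (Fin.succAboveEmb i)) (hSne.map)
      rw [Finset.card_map, Finset.sum_map] at hwc
      refine ⟨fun j => w (i.succAbove j), ?_, hwc⟩
      refine h.down w hw _ fun k => ?_
      refine Fin.succAboveCases i ?_ (fun j => ?_) k
      · rw [Fin.insertNth_apply_same]
        exact ⟨le_rfl, h.nonneg w hw i⟩
      · rw [Fin.insertNth_apply_succAbove]
        exact ⟨h.nonneg w hw _, le_rfl⟩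
    refine le_trans ?_ (Finset.sum_le_sum fun i _ => mul_le_mul_right (h2 i) _)
    rw [← Finset.sum_mul, ← ENNReal.ofReal_sum_of_nonneg
      (fun i _ => div_nonneg (h.nonneg x hx i) (by positivity)), Finset.prod_range_succ, mul_comm,
      ENNReal.ofReal_mul (div_nonneg (hc _) (by positivity))]
    refine mul_le_mul_left (ENNReal.ofReal_le_ofReal ?_) _
    rw [← Finset.sum_div]
    exact div_le_div_of_nonneg_right hxc (by positivity)

end Pool.Agent.Lib.MP_d1c05b_gt.PM
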