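import Pool.Agent.Lib.MP_d1c05b_gt.PM.Seq
import Pool.Agent.Lib.MP_d1c05b_gt.PM.Vol
import Pool.Agent.Lib.MP_d1c05b_gt.PM.ToricVol
import Pool.Agent.Lib.MP_d1c05b_gt.PM.Up

/-!
# The sharp inequality between capacities and the volume of convex toric domains

`c_k(X)^n ≤ k^m / m! vol(X)`, `m = min k n`.
-/

open MeasureTheory
open scoped ENNReal

namespace Pool.Agent.Lib.MP_d1c05b_gt.PM

variable {n : ℕ}

/-! ### The profile is an anti-blocking convex body -/

theorem profile_mem {Ω : Set (Fin n → ℝ)} (h : IsConvexProfile Ω) {x : Fin n → ℝ}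
    (hx : x ∈ Ω) : x ∈ {x : Fin n → ℝ | (fun j => |x j|) ∈ Ω} := by
  have h1 : (fun j => |x j|) = x := by
    funext j
    exact abs_of_nonneg (h.nonneg x hx j)
  show (fun j => |x j|) ∈ Ω
  rw [h1]
  exact hx

theorem profile_eq {Ω : Set (Fin n → ℝ)} (h : IsConvexProfile Ω) :
    Ω = {x : Fin n → ℝ | (fun j => |x j|) ∈ Ω} ∩ Set.Ici 0 := by
  ext x
  constructor
  · intro hx
    exact ⟨profile_mem h hx, fun j => h.nonneg x hx j⟩
  · rintro ⟨hx, hx0⟩
    have h1 : (fun j => |x j|) = x := by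
      funext j
      exact abs_of_nonneg (hx0 j)
    have h2 : (fun j => |x j|) ∈ Ω := hx
    rwa [h1] at h2

theorem profile_compact {Ω : Set (Fin n → ℝ)} (h : IsConvexProfile Ω) : IsCompact Ω := by
  rw [profile_eq h]
  exact h.compact.inter_right isClosed_Ici

theorem profile_update {Ω : Set (Fin n → ℝ)} (h : IsConvexProfile Ω) {w : Fin n → ℝ}
    (hw : w ∈ Ω) (i : Fin n) (t : ℝ) (ht0 : 0 ≤ t) (ht1 : t ≤ w i) :
    Function.update w i t ∈ Ω := by
  rcases (ht0.trans ht1).eq_or_lt with h0 | hpos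
  · have h1 : t = w i := by linarith
    rw [h1, Function.update_eq_self]
    exact hw
  · have hK := profile_mem h hw
    have hK' : Function.update w i (-(w i)) ∈ {x : Fin n → ℝ | (fun j => |x j|) ∈ Ω} := by
      show (fun j => |Function.update w i (-(w i)) j|) ∈ Ω
      have h1 : (fun j => |Function.update w i (-(w i)) j|) = w := by
        funext j
        by_cases hj : j = i
        · rw [hj, Function.update_self, abs_neg]
          exact abs_of_pos hpos
        · rw [Function.update_of_ne hj]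
          exact abs_of_nonneg (h.nonneg w hw j)
      rw [h1]
      exact hw
    have hq1 : t / w i ≤ 1 := (div_le_one hpos).2 ht1
    have hq0 : 0 ≤ t / w i := div_nonneg ht0 hpos.le
    have hcomb := h.convex hK hK' (a := (1 + t / w i) / 2) (b := (1 - t / w i) / 2)
      (by linarith) (by linarith) (by ring)
    have h2 : (((1 + t / w i) / 2) • w + ((1 - t / w i) / 2) • Function.update w i (-(w i))) =
        Function.update w i t := by
      funext j
      by_cases hj : j = i
      · rw [hj]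
        simp only [Pi.add_apply, Pi.smul_apply, Function.update_self, smul_eq_mul]
        field_simp
        ring
      · simp only [Pi.add_apply, Pi.smul_apply, Function.update_of_ne hj, smul_eq_mul]
        ring
    rw [h2] at hcomb
    rw [profile_eq h]
    refine ⟨hcomb, fun j => ?_⟩
    by_cases hj : j = i
    · rw [hj, Function.update_self]
      exact ht0
    · rw [Function.update_of_ne hj]
      exact h.nonneg w hw j

theorem profile_down {Ω : Set (Fin n → ℝ)} (h : IsConvexProfile Ω) (S : Finset (Fin n)) :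
    ∀ w ∈ Ω, ∀ v : Fin n → ℝ, (∀ j, 0 ≤ v j ∧ v j ≤ w j) → (∀ j, j ∉ S → v j = w j) → v ∈ Ω := by
  classical
  induction S using Finset.induction_on with
  | empty =>
    intro w hw v _ hv
    have : v = w := funext fun j => hv j (Finset.notMem_empty j)
    rw [this]
    exact hw
  | insert i S hi ih =>
    intro w hw v hv hvS
    have h1 : Function.update v i (w i) ∈ Ω := by
      refine ih w hw _ (fun j => ?_) fun j hj => ?_
      · by_cases hji : j = i
        · rw [hji, Function.update_self]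
          exact ⟨h.nonneg w hw i, le_rfl⟩
        · rw [Function.update_of_ne hji]
          exact hv j
      · by_cases hji : j = i
        · rw [hji, Function.update_self]
        · rw [Function.update_of_ne hji]
          exact hvS j (by rw [Finset.mem_insert, not_or]; exact ⟨hji, hj⟩)
    have h2 := profile_update h h1 i (v i) (hv i).1 (by rw [Function.update_self]; exact (hv i).2)
    rw [Function.update_idem, Function.update_eq_self] at h2
    exact h2

theorem profile_nonempty {Ω : Set (Fin n → ℝ)} (h : IsConvexProfile Ω) : Ω.Nonempty := by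
  obtain ⟨U, -, ⟨z, hz⟩, -, hU⟩ := h.toric
  have h1 : z ∈ toricSet Ω := by
    rw [hU]
    exact subset_closure hz
  exact ⟨_, h1⟩

theorem profile_ab {Ω : Set (Fin n → ℝ)} (h : IsConvexProfile Ω) : AB Ω where
  meas := (profile_compact h).isClosed.measurableSet
  conv := by
    rw [profile_eq h]
    exact h.convex.inter (convex_Ici 0)
  nonneg := h.nonneg
  zero := by
    obtain ⟨w, hw⟩ := profile_nonempty h
    exact profile_down h Finset.univ w hw 0 (fun j => ⟨le_rfl, h.nonneg w hw j⟩)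
      fun j hj => absurd (Finset.mem_univ j) hj
  down := fun w hw v hv => profile_down h Finset.univ w hw v hv
    fun j hj => absurd (Finset.mem_univ j) hj

/-! ### The support function and its minimum on the integer simplex -/

/-- the support function -/
noncomputable def hs (Ω : Set (Fin n → ℝ)) (u : Fin n → ℕ) : ℝ :=
  sSup ((fun w : Fin n → ℝ => ∑ j, (u j : ℝ) * w j) '' Ω)

theorem hs_spec {Ω : Set (Fin n → ℝ)} (h : IsConvexProfile Ω) (u : Fin n → ℕ) :
    (∃ w ∈ Ω, ∑ j, (u j : ℝ) * w j = hs Ω u) ∧ ∀ w ∈ Ω, ∑ j, (u j : ℝ) * w j ≤ hs Ω u := by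
  have hc : ContinuousOn (fun w : Fin n → ℝ => ∑ j, (u j : ℝ) * w j) Ω := by fun_prop
  obtain ⟨w, hw, hmax⟩ := (profile_compact h).exists_isMaxOn (profile_nonempty h) hc
  have hbd : BddAbove ((fun w : Fin n → ℝ => ∑ j, (u j : ℝ) * w j) '' Ω) := by
    refine ⟨∑ j, (u j : ℝ) * w j, ?_⟩
    rintro _ ⟨v, hv, rfl⟩
    exact hmax hv
  have hle : ∀ v ∈ Ω, ∑ j, (u j : ℝ) * v j ≤ hs Ω u := fun v hv => le_csSup hbd ⟨v, hv, rfl⟩
  refine ⟨⟨w, hw, le_antisymm (hle w hw) ?_⟩, hle⟩
  refine csSup_le ((profile_nonempty h).image _) ?_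
  rintro _ ⟨v, hv, rfl⟩
  exact hmax hv

theorem hs_nonneg {Ω : Set (Fin n → ℝ)} (h : IsConvexProfile Ω) (u : Fin n → ℕ) : 0 ≤ hs Ω u := by
  obtain ⟨w, hw⟩ := profile_nonempty h
  exact (Finset.sum_nonneg fun j _ => mul_nonneg (Nat.cast_nonneg _) (h.nonneg w hw j)).trans
    ((hs_spec h u).2 w hw)

theorem hs_add {Ω : Set (Fin n → ℝ)} (h : IsConvexProfile Ω) (u v : Fin n → ℕ) :
    hs Ω (fun j => u j + v j) ≤ hs Ω u + hs Ω v := by
  obtain ⟨w, hw, he⟩ := (hs_spec h fun j => u j + v j).1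
  rw [← he]
  have h1 := (hs_spec h u).2 w hw
  have h2 := (hs_spec h v).2 w hw
  have h3 : ∑ j, ((u j + v j : ℕ) : ℝ) * w j = ∑ j, (u j : ℝ) * w j + ∑ j, (v j : ℝ) * w j := by
    rw [← Finset.sum_add_distrib]
    refine Finset.sum_congr rfl fun j _ => ?_
    push_cast
    ring
  rw [h3]
  linarith

theorem hs_mono {Ω : Set (Fin n → ℝ)} (h : IsConvexProfile Ω) (u v : Fin n → ℕ)
    (huv : ∀ j, u j ≤ v j) : hs Ω u ≤ hs Ω v := by
  obtain ⟨w, hw, he⟩ := (hs_spec h u).1
  rw [← he]
  refine le_trans (Finset.sum_le_sum fun j _ => ?_) ((hs_spec h v).2 w hw)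
  exact mul_le_mul_of_nonneg_right (by exact_mod_cast huv j) (h.nonneg w hw j)

theorem exists_min (hn : 1 ≤ n) (Ω : Set (Fin n → ℝ)) (m : ℕ) :
    ∃ u : Fin n → ℕ, ∑ j, u j = m ∧ ∀ v : Fin n → ℕ, ∑ j, v j = m → hs Ω u ≤ hs Ω v := by
  classical
  have hne : (Finset.piAntidiag (Finset.univ : Finset (Fin n)) m).Nonempty := by
    refine ⟨Pi.single ⟨0, hn⟩ m, ?_⟩
    rw [Finset.mem_piAntidiag]
    exact ⟨Finset.sum_pi_single' .. |>.trans (if_pos (Finset.mem_univ _)),
      fun i _ => Finset.mem_univ i⟩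
  obtain ⟨u, hu, hmin⟩ := Finset.exists_min_image _ (hs Ω) hne
  rw [Finset.mem_piAntidiag] at hu
  exact ⟨u, hu.1, fun v hv => hmin v (Finset.mem_piAntidiag.2 ⟨hv, fun i _ => Finset.mem_univ i⟩)⟩

/-- The sequence of the minima of the support function. -/
theorem exists_seq (hn : 1 ≤ n) {Ω : Set (Fin n → ℝ)} (h : IsConvexProfile Ω) :
    ∃ c : ℕ → ℝ, (∀ m, 0 ≤ c m) ∧ (∀ i j, i ≤ j → c i ≤ c j) ∧ (∀ i j, c (i + j) ≤ c i + c j) ∧
      (∀ v : Fin n → ℕ, c (∑ j, v j) ≤ hs Ω v) ∧
      ∀ m, ∃ u : Fin n → ℕ, ∑ j, u j = m ∧ hs Ω u = c m := by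
  classical
  choose U hU1 hU2 using exists_min hn Ω
  have hle : ∀ v : Fin n → ℕ, hs Ω (U (∑ j, v j)) ≤ hs Ω v := fun v => hU2 _ v rfl
  refine ⟨fun m => hs Ω (U m), fun m => hs_nonneg h _, ?_, ?_, hle, fun m => ⟨U m, hU1 m, rfl⟩⟩
  · have hstep : ∀ m, hs Ω (U m) ≤ hs Ω (U (m + 1)) := by
      intro m
      have h1 : ∃ p, U (m + 1) p ≠ 0 := by
        by_contra hcon
        push Not at hcon
        have h2 := hU1 (m + 1)
        rw [Finset.sum_eq_zero fun j _ => hcon j] at h2
        omega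
      obtain ⟨p, hp⟩ := h1
      set v : Fin n → ℕ := Function.update (U (m + 1)) p (U (m + 1) p - 1) with hv
      have hvs : ∑ j, v j = m := by
        have h2 := hU1 (m + 1)
        rw [← Finset.add_sum_erase _ _ (Finset.mem_univ p)] at h2
        rw [← Finset.add_sum_erase _ _ (Finset.mem_univ p)]
        have h3 : ∑ j ∈ Finset.univ.erase p, v j = ∑ j ∈ Finset.univ.erase p, U (m + 1) j :=
          Finset.sum_congr rfl fun j hj => by
            rw [hv, Function.update_of_ne (Finset.ne_of_mem_erase hj)]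
        rw [h3, hv, Function.update_self]
        omega
      refine (hU2 m v hvs).trans (hs_mono h v _ fun j => ?_)
      by_cases hj : j = p
      · rw [hj, hv, Function.update_self]
        omega
      · rw [hv, Function.update_of_ne hj]
    intro i j hij
    exact monotone_nat_of_le_succ hstep hij
  · intro i j
    refine (hU2 (i + j) (fun l => U i l + U j l) ?_).trans (hs_add h _ _)
    rw [Finset.sum_add_distrib, hU1, hU1]

/-! ### The inequality for the sequence -/

theorem prod_Icc (f : ℕ → ℝ) (n : ℕ) :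
    ∏ m ∈ Finset.Icc 1 n, f m = ∏ m ∈ Finset.range n, f (m + 1) := by
  induction n with
  | zero => simp
  | succ n ih => rw [Finset.prod_Icc_succ_top (by omega), ih, Finset.prod_range_succ]

theorem seq_ineq {c : ℕ → ℝ} (hmono : ∀ i j, i ≤ j → c i ≤ c j)
    (hsub : ∀ i j, c (i + j) ≤ c i + c j) {n k : ℕ} (hn : 1 ≤ n) (hk1 : 1 ≤ k) (hk : 0 < c k) :
    c k ^ n ≤ (k : ℝ) ^ (min k n) / ((min k n).factorial : ℝ) *
      ((n.factorial : ℝ) * ∏ m ∈ Finset.range n, c (m + 1) / ((m : ℝ) + 1)) := by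
  have hkpos : (0 : ℝ) < k := by exact_mod_cast hk1
  have base : ∀ n, 1 ≤ n → n ≤ k → c k ^ n ≤ (k : ℝ) ^ n / (n.factorial : ℝ) *
      ((n.factorial : ℝ) * ∏ m ∈ Finset.range n, c (m + 1) / ((m : ℝ) + 1)) := by
    intro n hn hnk
    have h1 := prod_ge hmono hsub hn hnk hk
    rw [prod_Icc] at h1
    push_cast at h1
    have hf : (n.factorial : ℝ) ≠ 0 := by exact_mod_cast n.factorial_ne_zero
    have h2 : (k : ℝ) ^ n / (n.factorial : ℝ) *
        ((n.factorial : ℝ) * ∏ m ∈ Finset.range n, c (m + 1) / ((m : ℝ) + 1)) =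
        (k : ℝ) ^ n * ∏ m ∈ Finset.range n, c (m + 1) / ((m : ℝ) + 1) := by
      field_simp
    rw [h2]
    calc c k ^ n = (k : ℝ) ^ n * (c k / k) ^ n := by
          rw [← mul_pow]
          congr 1
          field_simp
      _ ≤ _ := mul_le_mul_of_nonneg_left h1 (by positivity)
  rcases Nat.lt_or_ge k n with hkn | hnk
  · rw [min_eq_left hkn.le]
    induction n, hkn.le using Nat.le_induction with
    | base => exact base k hk1 le_rfl
    | succ n hkn' ih =>
      have ih' : c k ^ n ≤ (k : ℝ) ^ k / (k.factorial : ℝ) *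
          ((n.factorial : ℝ) * ∏ m ∈ Finset.range n, c (m + 1) / ((m : ℝ) + 1)) := by
        rcases Nat.lt_or_ge k n with h1 | h1
        · exact ih (by omega) h1
        · have h2 : n = k := by omega
          rw [h2]
          exact base k hk1 le_rfl
      have h3 : c k ≤ c (n + 1) := hmono _ _ (by omega)
      have h4 : (k : ℝ) ^ k / (k.factorial : ℝ) * (((n + 1).factorial : ℝ) *
          ∏ m ∈ Finset.range (n + 1), c (m + 1) / ((m : ℝ) + 1)) =
          (k : ℝ) ^ k / (k.factorial : ℝ) *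
          ((n.factorial : ℝ) * ∏ m ∈ Finset.range n, c (m + 1) / ((m : ℝ) + 1)) * c (n + 1) := by
        rw [Nat.factorial_succ, Finset.prod_range_succ]
        push_cast
        field_simp
      rw [h4, pow_succ]
      exact mul_le_mul ih' h3 hk.le ((pow_nonneg hk.le n).trans ih')
  · rw [min_eq_right hnk]
    exact base n hn hnk

/-! ### The main inequality -/

/-- `c_k(X)^n ≤ k^m / m! vol(X)`, `m = min k n`, for every convex toric domain `X`. -/
theorem capacity_pow_le (hn : 1 ≤ n) {k : ℕ} (hk : 1 ≤ k) (c : Set (Fin n → ℂ) → ℝ≥0∞)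
    (hc : IsCapacity k c) (X : Set (Fin n → ℂ)) (hX : IsConvexToricDomain X) :
    c X ^ n ≤ ENNReal.ofReal ((k : ℝ) ^ (min k n) / ((min k n).factorial : ℝ)) * vol X := by
  classical
  obtain ⟨Ω, h, rfl⟩ := hX
  obtain ⟨d, hd0, hdm, hds, hdle, hdex⟩ := exists_seq hn h
  have hcX : c (toricSet Ω) ≤ ENNReal.ofReal (d k) := by
    obtain ⟨u, hu, hue⟩ := hdex k
    exact capacity_le hk c hc Ω u hu (d k) (hd0 k) fun w hw => by
      rw [← hue]
      exact (hs_spec h u).2 w hw
  rcases (hd0 k).eq_or_lt with h0 | hpos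
  · rw [← h0, ENNReal.ofReal_zero] at hcX
    have h1 : c (toricSet Ω) = 0 := le_antisymm hcX zero_le
    rw [h1, zero_pow (by omega)]
    exact zero_le
  · have hvol := volume_ge d hd0 n Ω (profile_ab h) (by
      intro S hS
      set u : Fin n → ℕ := fun j => if j ∈ S then 1 else 0 with hu
      obtain ⟨w, hw, hwe⟩ := (hs_spec h u).1
      refine ⟨w, hw, ?_⟩
      have h1 : ∑ j, u j = S.card := by
        rw [hu]
        simp
      have h2 := hdle u
      rw [h1, ← hwe] at h2
      refine h2.trans (le_of_eq ?_)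
      rw [hu]
      simp)
    have hseq := seq_ineq hdm hds hn hk hpos
    have hP : 0 ≤ ∏ m ∈ Finset.range n, d (m + 1) / ((m : ℝ) + 1) :=
      Finset.prod_nonneg fun m _ => div_nonneg (hd0 _) (by positivity)
    calc c (toricSet Ω) ^ n ≤ ENNReal.ofReal (d k) ^ n := pow_le_pow_left₀ zero_le hcX n
      _ = ENNReal.ofReal (d k ^ n) := (ENNReal.ofReal_pow (hd0 k) n).symm
      _ ≤ ENNReal.ofReal ((k : ℝ) ^ (min k n) / ((min k n).factorial : ℝ) *
          ((n.factorial : ℝ) * ∏ m ∈ Finset.range n, d (m + 1) / ((m : ℝ) + 1))) :=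
        ENNReal.ofReal_le_ofReal hseq
      _ = ENNReal.ofReal ((k : ℝ) ^ (min k n) / ((min k n).factorial : ℝ)) *
          ((n.factorial : ℝ≥0∞) *
            ENNReal.ofReal (∏ m ∈ Finset.range n, d (m + 1) / ((m : ℝ) + 1))) := by
        rw [ENNReal.ofReal_mul (by positivity), ENNReal.ofReal_mul (by positivity),
          ENNReal.ofReal_natCast]
      _ ≤ _ := by
        unfold vol
        rw [volume_toricSet (profile_ab h).meas h.nonneg]
        gcongr

theorem ratio_le (hn : 1 ≤ n) {k : ℕ} (hk : 1 ≤ k) (c : Set (Fin n → ℂ) → ℝ≥0∞)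
    (hc : IsCapacity k c) (X : Set (Fin n → ℂ)) (hX : IsConvexToricDomain X) :
    ratio c X ≤ ENNReal.ofReal
      (((k : ℝ) ^ (min k n) / ((min k n).factorial : ℝ)) ^ ((1 : ℝ) / n)) := by
  have hn0 : (n : ℝ) ≠ 0 := by
    have : n ≠ 0 := by omega
    exact_mod_cast this
  have hkpos : (0 : ℝ) < k := by exact_mod_cast hk
  have h1 := capacity_pow_le hn hk c hc X hX
  have h2 := ENNReal.rpow_le_rpow h1 (z := (1 : ℝ) / n) (by positivity)
  rw [ENNReal.mul_rpow_of_nonneg _ _ (by positivity), ← ENNReal.rpow_natCast, ← ENNReal.rpow_mul,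
    mul_one_div_cancel hn0, ENNReal.rpow_one,
    ENNReal.ofReal_rpow_of_pos (by positivity)] at h2
  unfold ratio
  exact ENNReal.div_le_of_le_mul h2

theorem ratio_polydisk_ge (hn : 1 ≤ n) {k : ℕ} (c : Set (Fin n → ℂ) → ℝ≥0∞)
    (hP : (k : ℝ≥0∞) ≤ c (polydisk n)) :
    ENNReal.ofReal (((k : ℝ) ^ n / n.factorial) ^ ((1 : ℝ) / n)) ≤ ratio c (polydisk n) := by
  have hn' : (n : ℝ) ≠ 0 := by
    have : n ≠ 0 := by omega
    exact_mod_cast this
  have hf : (0 : ℝ) < n.factorial := by positivity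
  unfold ratio
  rw [vol_polydisk]
  refine le_trans (le_of_eq ?_) (ENNReal.div_le_div_right hP _)
  rw [← ENNReal.ofReal_natCast n.factorial, ENNReal.ofReal_rpow_of_pos hf,
    ← ENNReal.ofReal_natCast, ← ENNReal.ofReal_div_of_pos (by positivity)]
  congr 1
  rw [Real.div_rpow (by positivity) hf.le, ← Real.rpow_natCast, ← Real.rpow_mul (by positivity),
    mul_one_div_cancel hn', Real.rpow_one]

/-- The polydisk is a global maximiser for `k ≥ n` if `c_k(P) ≥ k`. -/
theorem ratio_le_polydisk (hn : 1 ≤ n) {k : ℕ} (hk : n ≤ k) (c : Set (Fin n → ℂ) → ℝ≥0∞)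
    (hc : IsCapacity k c) (hP : (k : ℝ≥0∞) ≤ c (polydisk n)) (X : Set (Fin n → ℂ))
    (hX : IsConvexToricDomain X) : ratio c X ≤ ratio c (polydisk n) := by
  have h1 := ratio_le hn (hn.trans hk) c hc X hX
  rw [min_eq_right hk] at h1
  exact h1.trans (ratio_polydisk_ge hn c hP)

end Pool.Agent.Lib.MP_d1c05b_gt.PM
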