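import Mathlib

/-!
# Meyer's inequality for anti-blocking convex bodies

If `Ω ⊆ [0,∞)^{n+1}` is convex and measurable, and `x ∈ Ω`, then
`|Ω| ≥ ∑_i x_i / (n+1) |Ω ∩ {x_i = 0}|`.
-/

open MeasureTheory
open scoped Pointwise

namespace Pool.Agent.Lib.MP_d1c05b_gt.PM

variable {n : ℕ}

/-- the section `{x_i = 0}` -/
def sec (Ω : Set (Fin (n + 1) → ℝ)) (i : Fin (n + 1)) : Set (Fin n → ℝ) :=
  {y | i.insertNth (0 : ℝ) y ∈ Ω}

/-- the open cone from `x` over the section `{x_i = 0}` -/
def cone (Ω : Set (Fin (n + 1) → ℝ)) (x : Fin (n + 1) → ℝ) (i : Fin (n + 1)) :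
    Set (Fin (n + 1) → ℝ) :=
  {z | (0 ≤ z i ∧ z i < x i) ∧
    (fun j : Fin n => (z (i.succAbove j) - z i / x i * x (i.succAbove j)) / (1 - z i / x i)) ∈ sec Ω i}

theorem continuous_insertNth (i : Fin (n + 1)) :
    Continuous fun y : Fin n → ℝ => (i.insertNth (0 : ℝ) y : Fin (n + 1) → ℝ) := by
  refine continuous_pi fun j => ?_
  refine Fin.succAboveCases i ?_ (fun k => ?_) j
  · simp only [Fin.insertNth_apply_same]
    exact continuous_const
  · simp only [Fin.insertNth_apply_succAbove]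
    exact continuous_apply k

theorem measurableSet_sec {Ω : Set (Fin (n + 1) → ℝ)} (hm : MeasurableSet Ω) (i : Fin (n + 1)) :
    MeasurableSet (sec Ω i) := (continuous_insertNth i).measurable hm

theorem measurableSet_cone {Ω : Set (Fin (n + 1) → ℝ)} (hm : MeasurableSet Ω)
    (x : Fin (n + 1) → ℝ) (i : Fin (n + 1)) : MeasurableSet (cone Ω x i) := by
  have h1 : Measurable fun z : Fin (n + 1) → ℝ =>
      (fun j : Fin n => (z (i.succAbove j) - z i / x i * x (i.succAbove j)) / (1 - z i / x i)) := by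
    refine measurable_pi_lambda _ fun j => ?_
    fun_prop
  have h2 : MeasurableSet {z : Fin (n + 1) → ℝ | 0 ≤ z i} :=
    measurableSet_le measurable_const (measurable_pi_apply i)
  have h3 : MeasurableSet {z : Fin (n + 1) → ℝ | z i < x i} :=
    measurableSet_lt (measurable_pi_apply i) measurable_const
  exact (h2.inter h3).inter (h1 (measurableSet_sec hm i))

theorem cone_subset {Ω : Set (Fin (n + 1) → ℝ)} (hc : Convex ℝ Ω) {x : Fin (n + 1) → ℝ}
    (hx : x ∈ Ω) (i : Fin (n + 1)) : cone Ω x i ⊆ Ω := by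
  rintro z ⟨⟨h0, h1⟩, h2⟩
  have hxi : 0 < x i := h0.trans_lt h1
  set t : ℝ := z i / x i with ht
  have ht0 : 0 ≤ t := div_nonneg h0 hxi.le
  have ht1 : t < 1 := by rw [ht, div_lt_one hxi]; exact h1
  have ht1' : (1 : ℝ) - t ≠ 0 := by linarith
  have hz : z = t • x + (1 - t) • (i.insertNth (0 : ℝ)
      (fun j : Fin n => (z (i.succAbove j) - t * x (i.succAbove j)) / (1 - t)) : Fin (n + 1) → ℝ) := by
    funext k
    refine Fin.succAboveCases i ?_ (fun j => ?_) k
    · simp only [Pi.add_apply, Pi.smul_apply, smul_eq_mul, Fin.insertNth_apply_same, mul_zero, add_zero]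
      rw [ht]; field_simp
    · simp only [Pi.add_apply, Pi.smul_apply, smul_eq_mul, Fin.insertNth_apply_succAbove]
      field_simp; ring
  rw [hz]
  exact hc hx h2 ht0 (by linarith) (by ring)

/-- on the cone over the section `i` the quotient `z_i / x_i` is minimal -/
theorem cone_le {Ω : Set (Fin (n + 1) → ℝ)} (h0 : ∀ w ∈ Ω, ∀ j, 0 ≤ w j) {x : Fin (n + 1) → ℝ}
    {i j : Fin (n + 1)} (hij : j ≠ i) {z : Fin (n + 1) → ℝ} (hz : z ∈ cone Ω x i) :
    z i * x j ≤ z j * x i := by
  obtain ⟨⟨hz0, hz1⟩, hz2⟩ := hz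
  have hxi : 0 < x i := hz0.trans_lt hz1
  obtain ⟨k, rfl⟩ := Fin.exists_succAbove_eq hij
  have h1 := h0 _ hz2 (i.succAbove k)
  rw [Fin.insertNth_apply_succAbove] at h1
  have ht1 : z i / x i < 1 := by rw [div_lt_one hxi]; exact hz1
  have h2 : 0 ≤ z (i.succAbove k) - z i / x i * x (i.succAbove k) := by
    by_contra hlt
    push Not at hlt
    have := div_neg_of_neg_of_pos hlt (by linarith : 0 < 1 - z i / x i)
    linarith
  have h3 : z i / x i * x (i.succAbove k) ≤ z (i.succAbove k) := by linarith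
  calc z i * x (i.succAbove k) = z i / x i * x (i.succAbove k) * x i := by field_simp
    _ ≤ z (i.succAbove k) * x i := mul_le_mul_of_nonneg_right h3 hxi.le

theorem cone_disjoint {Ω : Set (Fin (n + 1) → ℝ)} (h0 : ∀ w ∈ Ω, ∀ j, 0 ≤ w j)
    {x : Fin (n + 1) → ℝ} {i j : Fin (n + 1)} (hij : i ≠ j) :
    AEDisjoint volume (cone Ω x i) (cone Ω x j) := by
  unfold AEDisjoint
  by_cases hxi : 0 < x i
  · set φ : (Fin (n + 1) → ℝ) →ₗ[ℝ] ℝ :=
      x i • LinearMap.proj j - x j • LinearMap.proj i with hφ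
    have hφa : ∀ z, φ z = x i * z j - x j * z i := fun z => by simp [hφ]
    have hsub : cone Ω x i ∩ cone Ω x j ⊆ (LinearMap.ker φ : Set (Fin (n + 1) → ℝ)) := by
      rintro z ⟨h1, h2⟩
      have e1 := cone_le h0 hij.symm h1
      have e2 := cone_le h0 hij h2
      rw [SetLike.mem_coe, LinearMap.mem_ker, hφa]
      linarith
    have hne : LinearMap.ker φ ≠ ⊤ := by
      intro htop
      have h1 : Pi.single (M := fun _ => ℝ) j 1 ∈ LinearMap.ker φ := by rw [htop]; trivial
      rw [LinearMap.mem_ker, hφa, Pi.single_eq_same, Pi.single_eq_of_ne hij] at h1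
      linarith
    exact measure_mono_null hsub (Measure.addHaar_submodule volume _ hne)
  · have : cone Ω x i = ∅ := by
      ext z
      simp only [cone, Set.mem_ofPred_eq, Set.mem_empty_iff_false, iff_false]
      rintro ⟨⟨h1, h2⟩, -⟩
      exact hxi (h1.trans_lt h2)
    rw [this, Set.empty_inter, measure_empty]

/-- the volume of the cone -/
theorem volume_cone {Ω : Set (Fin (n + 1) → ℝ)} (hm : MeasurableSet Ω) (x : Fin (n + 1) → ℝ)
    (i : Fin (n + 1)) :
    volume (cone Ω x i) = ENNReal.ofReal (x i / (n + 1)) * volume (sec Ω i) := by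
  by_cases hxi : 0 < x i
  swap
  · have : cone Ω x i = ∅ := by
      ext z
      simp only [cone, Set.mem_ofPred_eq, Set.mem_empty_iff_false, iff_false]
      rintro ⟨⟨h1, h2⟩, -⟩
      exact hxi (h1.trans_lt h2)
    rw [this, measure_empty, ENNReal.ofReal_of_nonpos, zero_mul]
    push Not at hxi
    exact div_nonpos_of_nonpos_of_nonneg hxi (by positivity)
  have hmp := volume_preserving_piFinSuccAbove (fun _ : Fin (n + 1) => ℝ) i
  set e := MeasurableEquiv.piFinSuccAbove (fun _ : Fin (n + 1) => ℝ) i with he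
  set S : Set (ℝ × (Fin n → ℝ)) := {p | (0 ≤ p.1 ∧ p.1 < x i) ∧
    (fun j : Fin n => (p.2 j - p.1 / x i * x (i.succAbove j)) / (1 - p.1 / x i)) ∈ sec Ω i} with hS
  have hSm : MeasurableSet S := by
    have h1 : Measurable fun p : ℝ × (Fin n → ℝ) =>
        (fun j : Fin n => (p.2 j - p.1 / x i * x (i.succAbove j)) / (1 - p.1 / x i)) := by
      refine measurable_pi_lambda _ fun j => ?_
      fun_prop
    have h2 : MeasurableSet {p : ℝ × (Fin n → ℝ) | 0 ≤ p.1} := measurableSet_le measurable_const measurable_fst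
    have h3 : MeasurableSet {p : ℝ × (Fin n → ℝ) | p.1 < x i} := measurableSet_lt measurable_fst measurable_const
    exact (h2.inter h3).inter (h1 (measurableSet_sec hm i))
  have hpre : cone Ω x i = e ⁻¹' S := rfl
  rw [hpre, hmp.measure_preimage hSm.nullMeasurableSet, Measure.volume_eq_prod,
    Measure.prod_apply hSm]
  have hslice : ∀ τ : ℝ, volume (Prod.mk τ ⁻¹' S) =
      (Set.Ico 0 (x i)).indicator (fun τ => ENNReal.ofReal ((1 - τ / x i) ^ n) * volume (sec Ω i)) τ := by
    intro τ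
    by_cases hτ : τ ∈ Set.Ico 0 (x i)
    · rw [Set.indicator_of_mem hτ]
      have ht1 : 0 < 1 - τ / x i := by
        rw [sub_pos, div_lt_one hxi]; exact hτ.2
      set b : Fin n → ℝ := fun j => τ / x i * x (i.succAbove j) with hb
      have hset : Prod.mk τ ⁻¹' S = (fun w => w + (-b)) ⁻¹' ((1 - τ / x i) • sec Ω i) := by
        ext w
        simp only [Set.mem_preimage, hS, Set.mem_ofPred_eq]
        rw [Set.mem_smul_set_iff_inv_smul_mem₀ ht1.ne']
        have : ((1 - τ / x i)⁻¹ • (w + -b)) =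
            fun j : Fin n => (w j - τ / x i * x (i.succAbove j)) / (1 - τ / x i) := by
          funext j
          simp only [Pi.smul_apply, Pi.add_apply, Pi.neg_apply, smul_eq_mul, hb]
          rw [div_eq_inv_mul]; ring
        rw [this]
        exact ⟨fun h => h.2, fun h => ⟨hτ, h⟩⟩
      rw [hset, measure_preimage_add_right, Measure.addHaar_smul, Module.finrank_fin_fun,
        abs_of_pos (pow_pos ht1 n)]
    · rw [Set.indicator_of_notMem hτ]
      have : Prod.mk τ ⁻¹' S = ∅ := by
        ext w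
        simp only [Set.mem_preimage, hS, Set.mem_ofPred_eq, Set.mem_empty_iff_false, iff_false]
        intro h
        exact hτ h.1
      rw [this, measure_empty]
  rw [lintegral_congr hslice, lintegral_indicator measurableSet_Ico]
  rw [lintegral_mul_const _ (by fun_prop)]
  congr 1
  have hint : ∫ τ in (0 : ℝ)..x i, (1 - τ / x i) ^ n = x i / (n + 1) := by
    have h1 : ∫ τ in (0 : ℝ)..x i, (1 - τ / x i) ^ n =
        ∫ τ in (0 : ℝ)..x i, (fun s => s ^ n) (1 - τ / x i) := rfl
    rw [h1, intervalIntegral.integral_comp_sub_div (fun s => s ^ n) hxi.ne']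
    rw [div_self hxi.ne', zero_div, sub_zero, sub_self, integral_pow, smul_eq_mul]
    simp
    ring
  rw [← hint, intervalIntegral.integral_of_le hxi.le, ← ofReal_integral_eq_lintegral_ofReal]
  · rw [← integral_Ico_eq_integral_Ioc]
  · have : IntervalIntegrable (fun τ : ℝ => (1 - τ / x i) ^ n) volume 0 (x i) :=
      Continuous.intervalIntegrable (by fun_prop) _ _
    rw [intervalIntegrable_iff_integrableOn_Ioc_of_le hxi.le] at this
    rw [← integrableOn_Icc_iff_integrableOn_Ioc, integrableOn_Icc_iff_integrableOn_Ico] at this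
    exact this
  · filter_upwards [ae_restrict_mem measurableSet_Ico] with τ hτ
    have : 0 ≤ 1 - τ / x i := by
      rw [sub_nonneg, div_le_one hxi]; exact hτ.2.le
    positivity

/-- Meyer's inequality -/
theorem meyer {Ω : Set (Fin (n + 1) → ℝ)} (hm : MeasurableSet Ω) (hc : Convex ℝ Ω)
    (h0 : ∀ w ∈ Ω, ∀ j, 0 ≤ w j) {x : Fin (n + 1) → ℝ} (hx : x ∈ Ω) :
    ∑ i, ENNReal.ofReal (x i / (n + 1)) * volume (sec Ω i) ≤ volume Ω := by
  have h1 : volume (⋃ i, cone Ω x i) = ∑' i, volume (cone Ω x i) := by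
    refine measure_iUnion₀ ?_ (fun i => (measurableSet_cone hm x i).nullMeasurableSet)
    intro i j hij
    exact cone_disjoint h0 hij
  rw [tsum_fintype] at h1
  have h2 : volume (⋃ i, cone Ω x i) ≤ volume Ω :=
    measure_mono (Set.iUnion_subset fun i => cone_subset hc hx i)
  rw [h1] at h2
  refine le_trans (le_of_eq ?_) h2
  exact Finset.sum_congr rfl fun i _ => (volume_cone hm x i).symm

end Pool.Agent.Lib.MP_d1c05b_gt.PM
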