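import Pool.Agent.Lib.MP_d1c05b_gt.PM.Main

/-!
# Convex toric domains given by finitely many linear inequalities
-/

open MeasureTheory
open scoped ENNReal

namespace Pool.Agent.Lib.MP_d1c05b_gt.PM

variable {n : ℕ} {ι : Type} [Finite ι]

/-- The body `{w ∈ [0,∞)ⁿ : ∑_j A_{ij} w_j ≤ 1 for all i}`. -/
def body (A : ι → Fin n → ℝ) : Set (Fin n → ℝ) :=
  {w | (∀ j, 0 ≤ w j) ∧ ∀ i, ∑ j, A i j * w j ≤ 1}

omit [Finite ι] in
theorem mem_body {A : ι → Fin n → ℝ} {w : Fin n → ℝ} :
    w ∈ body A ↔ (∀ j, 0 ≤ w j) ∧ ∀ i, ∑ j, A i j * w j ≤ 1 := Iff.rfl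

omit [Finite ι] in
theorem mem_toricSet_body {A : ι → Fin n → ℝ} {z : Fin n → ℂ} :
    z ∈ toricSet (body A) ↔ ∀ i, ∑ j, A i j * (Real.pi * ‖z j‖ ^ 2) ≤ 1 := by
  have hpi := Real.pi_pos
  exact ⟨fun h => h.2, fun h => ⟨fun j => by positivity, h⟩⟩

theorem isToricDomain_body {A : ι → Fin n → ℝ} (hA : ∀ i j, 0 ≤ A i j) :
    IsToricDomain (toricSet (body A)) := by
  have hpi := Real.pi_pos
  set U : Set (Fin n → ℂ) := {z | ∀ i, ∑ j, A i j * (Real.pi * ‖z j‖ ^ 2) < 1} with hU
  have hUo : IsOpen U := by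
    have h1 : U = ⋂ i, {z : Fin n → ℂ | ∑ j, A i j * (Real.pi * ‖z j‖ ^ 2) < 1} := by
      ext z
      simp [hU]
    rw [h1]
    exact isOpen_iInter_of_finite fun i => isOpen_lt (by fun_prop) (by fun_prop)
  have hclosed : IsClosed (toricSet (body A)) := by
    have h1 : toricSet (body A) =
        ⋂ i, {z : Fin n → ℂ | ∑ j, A i j * (Real.pi * ‖z j‖ ^ 2) ≤ 1} := by
      ext z
      rw [mem_toricSet_body]
      simp
    rw [h1]
    exact isClosed_iInter fun i => isClosed_le (by fun_prop) (by fun_prop)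
  refine ⟨U, hUo, ⟨0, fun i => ?_⟩, ?_, ?_⟩
  · simp
  · intro z hz θ i
    have h1 : ∀ j, ‖Complex.exp (θ j * Complex.I) * z j‖ = ‖z j‖ := by
      intro j
      rw [norm_mul, Complex.norm_exp_ofReal_mul_I, one_mul]
    simp only [h1]
    exact hz i
  · apply Set.Subset.antisymm
    · intro z hz
      rw [mem_toricSet_body] at hz
      have hlim : Filter.Tendsto (fun m : ℕ => ((1 - 1 / ((m : ℝ) + 1)) : ℝ) • z)
          Filter.atTop (nhds z) := by
        have h1 : Filter.Tendsto (fun m : ℕ => ((1 - 1 / ((m : ℝ) + 1)) : ℝ))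
            Filter.atTop (nhds (1 - 0)) :=
          tendsto_const_nhds.sub tendsto_one_div_add_atTop_nhds_zero_nat
        rw [sub_zero] at h1
        have := h1.smul_const z
        rwa [one_smul] at this
      refine mem_closure_of_tendsto hlim (Filter.Eventually.of_forall fun m => ?_)
      set t : ℝ := 1 - 1 / ((m : ℝ) + 1) with ht
      have hm : (0 : ℝ) < (m : ℝ) + 1 := by positivity
      have ht0 : 0 ≤ t := by
        rw [ht]
        have : 1 / ((m : ℝ) + 1) ≤ 1 := by
          rw [div_le_one hm]; linarith [(Nat.cast_nonneg m : (0 : ℝ) ≤ m)]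
        linarith
      have ht1 : t < 1 := by
        rw [ht]
        have : 0 < 1 / ((m : ℝ) + 1) := by positivity
        linarith
      have ht2 : t ^ 2 < 1 := by nlinarith
      have ht3 : 0 ≤ t ^ 2 := by positivity
      intro i
      have h1 : ∀ j, A i j * (Real.pi * ‖(t • z) j‖ ^ 2) =
          t ^ 2 * (A i j * (Real.pi * ‖z j‖ ^ 2)) := by
        intro j
        rw [Pi.smul_apply, norm_smul, Real.norm_eq_abs, abs_of_nonneg ht0]
        ring
      rw [Finset.sum_congr rfl fun j _ => h1 j, ← Finset.mul_sum]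
      have h0 : 0 ≤ ∑ j, A i j * (Real.pi * ‖z j‖ ^ 2) :=
        Finset.sum_nonneg fun j _ => mul_nonneg (hA i j) (by positivity)
      nlinarith [hz i]
    · exact closure_minimal (fun z hz => mem_toricSet_body.2 fun i => (hz i).le) hclosed

theorem isConvexProfile_body {A : ι → Fin n → ℝ} (hA : ∀ i j, 0 ≤ A i j)
    (hA' : ∀ j, ∃ i, 0 < A i j) : IsConvexProfile (body A) := by
  have hset : {x : Fin n → ℝ | (fun j => |x j|) ∈ body A} =
      {x : Fin n → ℝ | ∀ i, ∑ j, A i j * |x j| ≤ 1} := by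
    ext x
    exact ⟨fun h => h.2, fun h => ⟨fun j => abs_nonneg _, h⟩⟩
  refine ⟨fun x hx => hx.1, ?_, ?_, isToricDomain_body hA⟩
  · rw [hset]
    apply Metric.isCompact_of_isClosed_isBounded
    · have h : {x : Fin n → ℝ | ∀ i, ∑ j, A i j * |x j| ≤ 1} =
          ⋂ i, {x : Fin n → ℝ | ∑ j, A i j * |x j| ≤ 1} := by
        ext x; simp
      rw [h]
      exact isClosed_iInter fun i => isClosed_le (by fun_prop) (by fun_prop)
    · choose I hI using hA'
      have hR : 0 ≤ ∑ j, 1 / A (I j) j := Finset.sum_nonneg fun j _ => (one_div_pos.2 (hI j)).le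
      apply (Metric.isBounded_closedBall (x := (0 : Fin n → ℝ)) (r := ∑ j, 1 / A (I j) j)).subset
      intro x hx
      rw [Metric.mem_closedBall, dist_zero_right, pi_norm_le_iff_of_nonneg hR]
      intro j
      rw [Real.norm_eq_abs]
      have h1 : A (I j) j * |x j| ≤ 1 :=
        (Finset.single_le_sum (f := fun j' => A (I j) j' * |x j'|)
          (fun j' _ => mul_nonneg (hA _ _) (abs_nonneg _)) (Finset.mem_univ j)).trans (hx (I j))
      have h2 : |x j| ≤ 1 / A (I j) j := by
        rw [le_div_iff₀ (hI j), mul_comm]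
        exact h1
      exact h2.trans (Finset.single_le_sum (f := fun j' => 1 / A (I j') j')
          (fun j' _ => (one_div_pos.2 (hI j')).le) (Finset.mem_univ j))
  · rw [hset]
    intro x hx y hy a b ha hb hab i
    have hj : ∀ j ∈ (Finset.univ : Finset (Fin n)),
        A i j * |(a • x + b • y) j| ≤ a * (A i j * |x j|) + b * (A i j * |y j|) := by
      intro j _
      rw [Pi.add_apply, Pi.smul_apply, Pi.smul_apply, smul_eq_mul, smul_eq_mul]
      have h1 : |a * x j + b * y j| ≤ a * |x j| + b * |y j| := by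
        refine (abs_add_le _ _).trans ?_
        rw [abs_mul, abs_mul, abs_of_nonneg ha, abs_of_nonneg hb]
      have h2 := mul_le_mul_of_nonneg_left h1 (hA i j)
      linarith
    refine (Finset.sum_le_sum hj).trans ?_
    rw [Finset.sum_add_distrib, ← Finset.mul_sum, ← Finset.mul_sum]
    have h1 := mul_le_mul_of_nonneg_left (hx i) ha
    have h2 := mul_le_mul_of_nonneg_left (hy i) hb
    linarith

/-- the lower bound for the value of a capacity -/
theorem le_value_body {A : ι → Fin n → ℝ} (hA : ∀ i j, 0 ≤ A i j) (hA' : ∀ j, ∃ i, 0 < A i j)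
    {k : ℕ} (c : Set (Fin n → ℂ) → ℝ≥0∞) (hc : GuttHutchingsLower k c)
    (h : ∀ v : Fin n → ℕ, ∑ j, v j = k → ∃ w ∈ body A, (k : ℝ) ≤ ∑ j, (v j : ℝ) * w j) :
    (k : ℝ≥0∞) ≤ c (toricSet (body A)) := by
  refine le_trans ?_ (hc _ (isConvexProfile_body hA hA'))
  refine le_iInf₂ fun v hv => ?_
  obtain ⟨w, hw, hle⟩ := h v hv
  refine le_iSup₂_of_le w hw ?_
  rw [← ENNReal.ofReal_natCast]
  exact ENNReal.ofReal_le_ofReal hle

/-- ellipsoids are convex toric domains -/
theorem isConvexToricDomain_ellipsoid (b : Fin n → ℝ) (hb : ∀ j, 0 < b j) :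
    IsConvexToricDomain (ellipsoid fun j => ENNReal.ofReal (b j)) := by
  refine ⟨body (ι := Unit) fun _ j => 1 / b j,
    isConvexProfile_body (fun _ j => (one_div_pos.2 (hb j)).le)
      fun j => ⟨(), one_div_pos.2 (hb j)⟩, ?_⟩
  ext z
  rw [mem_toricSet_body]
  have hpi := Real.pi_pos
  have h1 : ∀ j, ENNReal.ofReal (Real.pi * ‖z j‖ ^ 2) / ENNReal.ofReal (b j) =
      ENNReal.ofReal (1 / b j * (Real.pi * ‖z j‖ ^ 2)) := by
    intro j
    rw [← ENNReal.ofReal_div_of_pos (hb j)]
    congr 1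
    ring
  change ∑ j, ENNReal.ofReal (Real.pi * ‖z j‖ ^ 2) / ENNReal.ofReal (b j) ≤ 1 ↔ _
  rw [Finset.sum_congr rfl fun j _ => h1 j, ← ENNReal.ofReal_sum_of_nonneg
    (fun j _ => mul_nonneg (one_div_pos.2 (hb j)).le (by positivity)), ENNReal.ofReal_le_one]
  exact ⟨fun h _ => h, fun h => h ()⟩

/-- the polydisk is a convex toric domain -/
theorem isConvexToricDomain_polydisk : IsConvexToricDomain (polydisk n) := by
  classical
  refine ⟨body (ι := Fin n) fun i j => if i = j then 1 else 0,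
    isConvexProfile_body (fun i j => by split_ifs <;> norm_num) fun j => ⟨j, by simp⟩, ?_⟩
  ext z
  rw [mem_toricSet_body]
  simp only [ite_mul, one_mul, zero_mul, Finset.sum_ite_eq, Finset.mem_univ, if_true]
  rfl

end Pool.Agent.Lib.MP_d1c05b_gt.PM
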