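import Mathlib

/-!
# A product inequality for subadditive sequences

If `c` is nondecreasing and subadditive and `1 ≤ n ≤ k`, then
`c_1 c_2 ⋯ c_n ≥ n! (c_k / k)^n`.
-/

namespace Pool.Agent.Lib.MP_d1c05b_gt.PM

variable {c : ℕ → ℝ}

private theorem sub_mul (hsub : ∀ i j, c (i + j) ≤ c i + c j) (m : ℕ) :
    ∀ q : ℕ, 1 ≤ q → c (q * m) ≤ q * c m := by
  intro q hq
  induction q, hq using Nat.le_induction with
  | base => simp
  | succ q hq ih =>
    have h1 := hsub (q * m) m
    rw [show (q + 1) * m = q * m + m by ring]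
    push_cast
    linarith

private theorem sub_mul_add (hsub : ∀ i j, c (i + j) ≤ c i + c j) (m r q : ℕ) (hq : 1 ≤ q) :
    c (q * m + r) ≤ q * c m + c r := by
  have h1 := hsub (q * m) r
  have h2 := sub_mul hsub m q hq
  linarith

theorem pos_of_pos (hmono : ∀ i j, i ≤ j → c i ≤ c j) (hsub : ∀ i j, c (i + j) ≤ c i + c j)
    {k : ℕ} (hk : 0 < c k) (hk1 : 1 ≤ k) : ∀ r, 1 ≤ r → 0 < c r := by
  intro r hr
  have h1 := sub_mul hsub 1 k hk1
  rw [mul_one] at h1
  have h2 : 0 < c 1 := by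
    by_contra h
    push Not at h
    have : (k : ℝ) * c 1 ≤ 0 := mul_nonpos_of_nonneg_of_nonpos (Nat.cast_nonneg _) h
    linarith
  exact h2.trans_le (hmono 1 r hr)

/-- the normalised form: `c k = k` -/
private theorem prod_ge_one (hmono : ∀ i j, i ≤ j → c i ≤ c j)
    (hsub : ∀ i j, c (i + j) ≤ c i + c j) {n k : ℕ} (hn : 1 ≤ n) (hnk : n ≤ k) (hk : c k = k) :
    1 ≤ ∏ m ∈ Finset.Icc 1 n, c m / m := by
  classical
  have hk1 : 1 ≤ k := hn.trans hnk
  have hkpos : 0 < c k := by rw [hk]; exact_mod_cast hk1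
  have hpos := pos_of_pos hmono hsub hkpos hk1
  set D : Finset ℕ := (Finset.Icc 1 n).filter (fun m => c m < m) with hD
  set ρ : ℕ → ℕ := fun m => k % m with hρ
  have hmem : ∀ m ∈ D, 1 ≤ m ∧ m ≤ n ∧ c m < m := by
    intro m hm
    rw [hD, Finset.mem_filter, Finset.mem_Icc] at hm
    exact ⟨hm.1.1, hm.1.2, hm.2⟩
  -- facts on a deficit
  have hfact : ∀ m ∈ D, 1 ≤ ρ m ∧ ρ m < m ∧ 1 ≤ k / m ∧ (k : ℝ) ≤ (k / m : ℕ) * c m + c (ρ m) ∧
      ((k / m : ℕ) : ℝ) * m = k - ρ m := by
    intro m hm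
    obtain ⟨h1, h2, h3⟩ := hmem m hm
    have hq : 1 ≤ k / m := (Nat.one_le_div_iff (by omega)).2 (h2.trans hnk)
    have hdm : k / m * m + k % m = k := Nat.div_add_mod' k m
    have hr : ρ m < m := Nat.mod_lt _ (by omega)
    have hc : (k : ℝ) ≤ (k / m : ℕ) * c m + c (ρ m) := by
      have := sub_mul_add hsub m (k % m) (k / m) hq
      rw [hdm, hk] at this
      exact this
    have hcast : ((k / m : ℕ) : ℝ) * m = k - ρ m := by
      have : (((k / m * m + k % m : ℕ) : ℕ) : ℝ) = k := by rw [hdm]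
      push_cast at this
      rw [hρ]
      simp only
      linarith
    refine ⟨?_, hr, hq, hc, hcast⟩
    by_contra h0
    have h0' : ρ m = 0 := by omega
    have hk' : k / m * m = k := by
      have : k % m = 0 := h0'
      omega
    have h4 := sub_mul hsub m (k / m) hq
    rw [hk', hk] at h4
    have h5 : ((k / m : ℕ) : ℝ) * m = k := by rw [hcast, h0']; simp
    have h6 : ((k / m : ℕ) : ℝ) * c m < ((k / m : ℕ) : ℝ) * m := by
      refine mul_lt_mul_of_pos_left h3 ?_
      exact_mod_cast hq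
    linarith
  -- the surplus of the residues
  have hsur : ∀ m ∈ D, (ρ m : ℝ) < c (ρ m) := by
    intro m hm
    obtain ⟨h1, h2, h3⟩ := hmem m hm
    obtain ⟨h4, h5, h6, h7, h8⟩ := hfact m hm
    have h9 : ((k / m : ℕ) : ℝ) * c m < ((k / m : ℕ) : ℝ) * m :=
      mul_lt_mul_of_pos_left h3 (by exact_mod_cast h6)
    linarith
  set R : Finset ℕ := D.image ρ with hR
  have hRD : Disjoint D R := by
    rw [Finset.disjoint_left]
    intro m hm hmR
    rw [hR, Finset.mem_image] at hmR
    obtain ⟨m', hm', hmm⟩ := hmR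
    have h1 := hsur m' hm'
    rw [hmm] at h1
    have h2 := (hmem m hm).2.2
    linarith
  have hRsub : R ⊆ Finset.Icc 1 n := by
    intro r hr
    rw [hR, Finset.mem_image] at hr
    obtain ⟨m, hm, rfl⟩ := hr
    obtain ⟨h1, h2, h3⟩ := hmem m hm
    obtain ⟨h4, h5, -⟩ := hfact m hm
    rw [Finset.mem_Icc]
    omega
  have hDsub : D ⊆ Finset.Icc 1 n := Finset.filter_subset _ _
  have hxpos : ∀ m, 1 ≤ m → 0 < c m / m := fun m hm => div_pos (hpos m hm) (by exact_mod_cast hm)
  -- the group of a residue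
  have hgroup : ∀ r ∈ R, 1 ≤ (c r / r) * ∏ m ∈ D.filter (fun m => ρ m = r), c m / m := by
    intro r hr
    set Dr := D.filter (fun m => ρ m = r) with hDr
    obtain ⟨m0, hm0, hm0r⟩ := Finset.mem_image.1 (hR ▸ hr)
    have hr1 : 1 ≤ r := by rw [← hm0r]; exact (hfact m0 hm0).1
    have hrpos : (0 : ℝ) < r := by exact_mod_cast hr1
    have hcr : (r : ℝ) < c r := by have := hsur m0 hm0; rwa [hm0r] at this
    have hcrpos : 0 < c r := hrpos.trans hcr
    have hcrk : c r < k := by
      obtain ⟨h1, h2, h3⟩ := hmem m0 hm0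
      obtain ⟨h4, h5, -⟩ := hfact m0 hm0
      have h6 : c r ≤ c m0 := hmono r m0 (by rw [← hm0r]; exact h5.le)
      have h7 : (m0 : ℝ) ≤ k := by exact_mod_cast h2.trans hnk
      linarith
    have hkr : (0 : ℝ) < k - r := by linarith
    set z : ℝ := (c r - r) / (k - r) with hz
    have hz0 : 0 < z := div_pos (by linarith) hkr
    have hz1 : z < 1 := by rw [hz, div_lt_one hkr]; linarith
    have hfac : ∀ m ∈ Dr, 1 - z ≤ c m / m := by
      intro m hm
      rw [hDr, Finset.mem_filter] at hm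
      obtain ⟨h1, h2, h3⟩ := hmem m hm.1
      obtain ⟨h4, h5, h6, h7, h8⟩ := hfact m hm.1
      rw [hm.2] at h7 h8
      have hmpos : (0 : ℝ) < m := by exact_mod_cast h1
      have hqpos : (0 : ℝ) < (k / m : ℕ) := by exact_mod_cast h6
      have e1 : 1 - z = (k - c r) / (k - r) := by rw [hz]; field_simp; ring
      rw [e1, div_le_div_iff₀ hkr hmpos, ← h8]
      have h9 : (k - c r) * m ≤ ((k / m : ℕ) : ℝ) * c m * m :=
        mul_le_mul_of_nonneg_right (by linarith) hmpos.le
      linarith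
    have hcard : (Dr.card : ℝ) * c r ≤ k - r := by
      -- the quotients are distinct positive integers less than (k-r)/c r
      set Q : Finset ℕ := Dr.image (fun m => k / m) with hQ
      have hinj : Set.InjOn (fun m => k / m) (Dr : Set ℕ) := by
        intro m hm m' hm' hmm
        simp only at hmm
        have hm := Finset.mem_coe.1 hm
        have hm' := Finset.mem_coe.1 hm'
        rw [hDr, Finset.mem_filter] at hm hm'
        obtain ⟨-, -, h6, -, h8⟩ := hfact m hm.1
        obtain ⟨-, -, h6', -, h8'⟩ := hfact m' hm'.1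
        rw [hm.2] at h8
        rw [hm'.2, ← hmm] at h8'
        have hqpos : (0 : ℝ) < (k / m : ℕ) := by exact_mod_cast h6
        have : ((k / m : ℕ) : ℝ) * m = ((k / m : ℕ) : ℝ) * m' := by rw [h8, h8']
        have := mul_left_cancel₀ hqpos.ne' this
        exact_mod_cast this
      have hQc : Q.card = Dr.card := Finset.card_image_of_injOn hinj
      have hDrne : Dr.Nonempty := ⟨m0, by rw [hDr, Finset.mem_filter]; exact ⟨hm0, hm0r⟩⟩
      have hQne : Q.Nonempty := hDrne.image _
      have hQpos : ∀ q ∈ Q, 1 ≤ q ∧ (q : ℝ) * c r < k - r := by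
        intro q hq
        rw [hQ, Finset.mem_image] at hq
        obtain ⟨m, hm, rfl⟩ := hq
        rw [hDr, Finset.mem_filter] at hm
        obtain ⟨h1, h2, h3⟩ := hmem m hm.1
        obtain ⟨h4, h5, h6, h7, h8⟩ := hfact m hm.1
        rw [hm.2] at h8 h5
        refine ⟨h6, ?_⟩
        rw [← h8]
        refine mul_lt_mul_of_pos_left ?_ (by exact_mod_cast h6)
        exact (hmono r m h5.le).trans_lt h3
      have hmax := Q.max'_mem hQne
      obtain ⟨hq1, hq2⟩ := hQpos _ hmax
      have hcle : Q.card ≤ Q.max' hQne := by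
        have hsub' : Q ⊆ Finset.Icc 1 (Q.max' hQne) := fun q hq =>
          Finset.mem_Icc.2 ⟨(hQpos q hq).1, Q.le_max' q hq⟩
        have := Finset.card_le_card hsub'
        rwa [Nat.card_Icc, Nat.add_sub_cancel] at this
      rw [← hQc]
      have : (Q.card : ℝ) ≤ (Q.max' hQne : ℕ) := by exact_mod_cast hcle
      calc (Q.card : ℝ) * c r ≤ (Q.max' hQne : ℕ) * c r := mul_le_mul_of_nonneg_right this hcrpos.le
        _ ≤ k - r := hq2.le
    have hprod : (1 - z) ^ Dr.card ≤ ∏ m ∈ Dr, c m / m := by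
      rw [← Finset.prod_const]
      exact Finset.prod_le_prod (fun m _ => by linarith) hfac
    have hbern : 1 - Dr.card * z ≤ (1 - z) ^ Dr.card := by
      have := one_add_mul_le_pow (a := -z) (by linarith) Dr.card
      calc 1 - Dr.card * z = 1 + Dr.card * (-z) := by ring
        _ ≤ (1 + -z) ^ Dr.card := this
        _ = _ := by ring
    have htz : Dr.card * z ≤ (c r - r) / c r := by
      rw [hz, le_div_iff₀ hcrpos]
      rw [show (Dr.card : ℝ) * ((c r - r) / (k - r)) * c r = (Dr.card * c r) * ((c r - r) / (k - r)) by ring]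
      calc (Dr.card * c r) * ((c r - r) / (k - r)) ≤ (k - r) * ((c r - r) / (k - r)) :=
            mul_le_mul_of_nonneg_right hcard (div_nonneg (by linarith) hkr.le)
        _ = c r - r := by field_simp
    have hlow : (r : ℝ) / c r ≤ ∏ m ∈ Dr, c m / m := by
      have e1 : (r : ℝ) / c r = 1 - (c r - r) / c r := by field_simp; ring
      rw [e1]
      linarith
    calc (1 : ℝ) = (c r / r) * (r / c r) := by field_simp
      _ ≤ (c r / r) * ∏ m ∈ Dr, c m / m := mul_le_mul_of_nonneg_left hlow (by positivity)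
  -- the product
  set T : Finset ℕ := Finset.Icc 1 n \ (D ∪ R) with hT
  have hsplit : ∏ m ∈ Finset.Icc 1 n, c m / m =
      (∏ m ∈ T, c m / m) * ((∏ m ∈ D, c m / m) * ∏ r ∈ R, c r / r) := by
    rw [← Finset.prod_union hRD, hT]
    exact (Finset.prod_sdiff (Finset.union_subset hDsub hRsub)).symm
  have hfib : ∏ m ∈ D, c m / m = ∏ r ∈ R, ∏ m ∈ D.filter (fun m => ρ m = r), c m / m :=
    (Finset.prod_fiberwise_of_maps_to (fun m hm => Finset.mem_image_of_mem ρ hm) _).symm
  have hDR : 1 ≤ (∏ m ∈ D, c m / m) * ∏ r ∈ R, c r / r := by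
    rw [hfib, mul_comm, ← Finset.prod_mul_distrib]
    calc (1 : ℝ) = ∏ r ∈ R, 1 := by simp
      _ ≤ _ := Finset.prod_le_prod (fun _ _ => zero_le_one) hgroup
  have hTge : 1 ≤ ∏ m ∈ T, c m / m := by
    calc (1 : ℝ) = ∏ m ∈ T, 1 := by simp
      _ ≤ _ := Finset.prod_le_prod (fun _ _ => zero_le_one) (fun m hm => by
        rw [hT, Finset.mem_sdiff, Finset.mem_union, not_or] at hm
        have h1 := (Finset.mem_Icc.1 hm.1).1
        have hmpos : (0 : ℝ) < m := by exact_mod_cast h1
        rw [le_div_iff₀ hmpos, one_mul]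
        by_contra hlt
        push Not at hlt
        exact hm.2.1 (by rw [hD, Finset.mem_filter]; exact ⟨hm.1, hlt⟩))
  rw [hsplit]
  calc (1 : ℝ) = 1 * 1 := by ring
    _ ≤ _ := mul_le_mul hTge hDR zero_le_one (zero_le_one.trans hTge)

/-- If `c` is nondecreasing and subadditive and `1 ≤ n ≤ k`, then `∏_{m ≤ n} c_m / m ≥ (c_k / k)^n`. -/
theorem prod_ge (hmono : ∀ i j, i ≤ j → c i ≤ c j) (hsub : ∀ i j, c (i + j) ≤ c i + c j)
    {n k : ℕ} (hn : 1 ≤ n) (hnk : n ≤ k) (hk : 0 < c k) :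
    (c k / k) ^ n ≤ ∏ m ∈ Finset.Icc 1 n, c m / m := by
  have hk1 : 1 ≤ k := hn.trans hnk
  have hkpos : (0 : ℝ) < k := by exact_mod_cast hk1
  set s : ℝ := c k / k with hs
  have hspos : 0 < s := div_pos hk hkpos
  have h1 := prod_ge_one (c := fun m => c m / s) (n := n) (k := k)
    (fun i j hij => div_le_div_of_nonneg_right (hmono i j hij) hspos.le)
    (fun i j => by
      rw [← add_div]
      exact div_le_div_of_nonneg_right (hsub i j) hspos.le) hn hnk (by
      rw [hs]; field_simp)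
  have h2 : ∏ m ∈ Finset.Icc 1 n, c m / s / m = (∏ m ∈ Finset.Icc 1 n, c m / m) / s ^ n := by
    have : ∀ m ∈ Finset.Icc 1 n, c m / s / m = (c m / m) / s := fun m _ => by rw [div_right_comm]
    rw [Finset.prod_congr rfl this, Finset.prod_div_distrib, Finset.prod_const, Nat.card_Icc,
      Nat.add_sub_cancel]
  rw [h2, le_div_iff₀ (pow_pos hspos n), one_mul] at h1
  exact h1

end Pool.Agent.Lib.MP_d1c05b_gt.PM
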